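import Pool.Agent.Y655.TC.Mrs
import Pool.Agent.Y843.HG.VGold

/-!
# Sets of classes of dimension one
-/

set_option autoImplicit false

namespace Pool.Agent.Y843.QD

open Finset Filter
open Pool.Agent.Y843.HS (Pr VV Pr_mem Pr_prime)

/-- classes modulo all primes, one on the average -/
structure Lin (Z : ℕ → Finset ℕ) : Prop where
  two : ∀ p, p.Prime → (Z p).card ≤ 2
  lt : ∀ p, p.Prime → (Z p).card < p
  cl : ∀ p, ∀ c ∈ Z p, c < p
  dif : ∃ (K : ℝ) (n₁ : ℕ), 0 < K ∧ 3 ≤ n₁ ∧ ∀ A : ℕ, n₁ ≤ A → ∀ N : ℕ, A ≤ N →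
    |∑ p ∈ (Ioc A N).filter Nat.Prime, ((Z p).card : ℝ) / p -
      ∑ p ∈ (Ioc A N).filter Nat.Prime, (1 : ℝ) / p| ≤ K / Real.log ((A : ℝ) - 1)

/-- Mertens -/
theorem Lin.mer {Z : ℕ → Finset ℕ} (h : Lin Z) {ε η : ℝ} (hε : 0 < ε) (hη : 0 < η) : ∃ N₀ : ℕ,
    ∀ N : ℕ, N₀ ≤ N → ∀ a b : ℝ, ε ≤ a → a ≤ b → b ≤ 1 →
      |∑ p ∈ Pool.Agent.W23.DC.pr N a b, ((Z p).card : ℝ) / p - Real.log (b / a)| ≤ η := by
  obtain ⟨K0, n₁, hK0, hn3, hn₁⟩ := h.dif
  obtain ⟨N₁, hN₁⟩ := Pool.Agent.W378.DC.MP ε (η / 2) hε (by linarith)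
  set K : ℝ := max 1 (2 * (K0 + 1) / η) with hK
  have hK1 : 1 ≤ K := le_max_left _ _
  have hK2 : 2 * (K0 + 1) / η ≤ K := le_max_right _ _
  have hK3 : 2 * (K0 + 1) ≤ η * K := by
    rw [div_le_iff₀ hη] at hK2
    linarith
  have hev : ∀ᶠ N : ℕ in Filter.atTop, Real.exp K + n₁ + 3 ≤ (N : ℝ) ^ ε :=
    ((tendsto_rpow_atTop hε).comp tendsto_natCast_atTop_atTop).eventually_ge_atTop _
  obtain ⟨N₀, hN₀⟩ := Filter.eventually_atTop.1 hev
  refine ⟨max (max N₀ 2) N₁, fun N hN a b ha hab hb => ?_⟩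
  have hN2 : 2 ≤ N := ((le_max_right _ _).trans (le_max_left _ _)).trans hN
  have hNe := hN₀ N (((le_max_left _ _).trans (le_max_left _ _)).trans hN)
  have hMP := hN₁ N ((le_max_right _ _).trans hN) a b ha hab hb
  have hN1 : (1 : ℝ) < N := by exact_mod_cast (by omega : 1 < N)
  have hx1 : Real.exp K + n₁ + 3 ≤ (N : ℝ) ^ a :=
    hNe.trans (Real.rpow_le_rpow_of_exponent_le hN1.le ha)
  have hxy : (N : ℝ) ^ a ≤ (N : ℝ) ^ b := Real.rpow_le_rpow_of_exponent_le hN1.le hab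
  rw [Pool.Agent.W378.DC.TMP.pr_eq hN2 hb] at hMP ⊢
  have hAB : ⌈(N : ℝ) ^ a⌉₊ - 1 ≤ ⌈(N : ℝ) ^ b⌉₊ - 1 := Nat.sub_le_sub_right (Nat.ceil_mono hxy) 1
  have hAr : Real.exp K + n₁ + 2 ≤ ((⌈(N : ℝ) ^ a⌉₊ - 1 : ℕ) : ℝ) := by
    have h1 := Nat.le_ceil ((N : ℝ) ^ a)
    have h3 : (1 : ℝ) ≤ ⌈(N : ℝ) ^ a⌉₊ := by
      have := Real.exp_pos K
      have : (0 : ℝ) ≤ n₁ := Nat.cast_nonneg _
      linarith
    have h4 : 1 ≤ ⌈(N : ℝ) ^ a⌉₊ := by exact_mod_cast h3
    rw [Nat.cast_sub h4]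
    push_cast
    linarith
  set A := ⌈(N : ℝ) ^ a⌉₊ - 1 with hA
  set D := ⌈(N : ℝ) ^ b⌉₊ - 1 with hD
  have hexp := Real.exp_pos K
  have hn₁0 : (0 : ℝ) ≤ n₁ := Nat.cast_nonneg _
  have hAn : n₁ ≤ A := by
    have : (n₁ : ℝ) ≤ A := by linarith
    exact_mod_cast this
  have m1 := hn₁ A hAn D hAB
  have m2 := Pool.Agent.W378.DC.TMP.shift_prime (A := A) (B := D) (by omega) hAB
  rw [Finset.sum_sub_distrib] at m2
  have hA2 : (2 : ℝ) ≤ A := by linarith
  have hlA : K ≤ Real.log ((A : ℝ) - 1) := by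
    rw [Real.le_log_iff_exp_le (by linarith)]
    linarith
  have hlA0 : 0 < Real.log ((A : ℝ) - 1) := by linarith
  have m3 : 1 / (A : ℝ) ≤ 1 / Real.log ((A : ℝ) - 1) := by
    apply one_div_le_one_div_of_le hlA0
    have := Real.log_le_sub_one_of_pos (show (0 : ℝ) < (A : ℝ) - 1 by linarith)
    linarith
  have m4 : (K0 + 1) / Real.log ((A : ℝ) - 1) ≤ η / 2 := by
    rw [div_le_iff₀ hlA0]
    nlinarith
  have m5 : (K0 + 1) / Real.log ((A : ℝ) - 1) = K0 / Real.log ((A : ℝ) - 1) +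
      1 / Real.log ((A : ℝ) - 1) := by ring
  rw [abs_le] at *
  constructor <;> linarith [m1.1, m1.2, m2.1, m2.2, hMP.1, hMP.2]

theorem fac_lo {x : ℝ} (_h0 : 0 ≤ x) (h1 : x ≤ 2 / 3) : Real.exp (-(x + 3 * x ^ 2)) ≤ 1 - x := by
  have hx1 : 0 < 1 - x := by linarith
  have h2 : 1 - (1 - x)⁻¹ ≤ Real.log (1 - x) := Real.one_sub_inv_le_log_of_pos hx1
  have h3 : -(x + 3 * x ^ 2) ≤ 1 - (1 - x)⁻¹ := by
    have h4 : (1 - x)⁻¹ ≤ 1 + (x + 3 * x ^ 2) := by
      rw [inv_le_iff_one_le_mul₀ hx1]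
      nlinarith [mul_nonneg (sq_nonneg x) (show (0 : ℝ) ≤ 2 - 3 * x by linarith)]
    linarith
  rw [← Real.le_log_iff_exp_le hx1]
  linarith

/-- the sieve product -/
theorem Lin.prd {Z : ℕ → Finset ℕ} (h : Lin Z) : ∃ c C : ℝ, 0 < c ∧ 0 < C ∧ ∀ N : ℕ, 3 ≤ N →
    c / Real.log N ≤ VV Z 0 N ∧ VV Z 0 N ≤ C / Real.log N := by
  obtain ⟨K, n₁, hK, hn3, hn₁⟩ := h.dif
  obtain ⟨C, hC0, hC⟩ := Pool.Agent.Helper923.HMertens.mertens_ratio
  have hfac : ∀ p : ℕ, p.Prime → 0 < 1 - ((Z p).card : ℝ) / p ∧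
      1 - ((Z p).card : ℝ) / p ≤ 1 := by
    intro p hp
    have hp0 : (0 : ℝ) < p := by exact_mod_cast hp.pos
    have h1 : ((Z p).card : ℝ) < p := by exact_mod_cast h.lt p hp
    constructor
    · rw [sub_pos, div_lt_one hp0]
      exact h1
    · have : 0 ≤ ((Z p).card : ℝ) / p := by positivity
      linarith
  have hP0 : 0 < VV Z 0 n₁ := prod_pos fun p hp => (hfac p (Pr_prime hp)).1
  have hle1 : ∀ a b : ℕ, VV Z a b ≤ 1 := fun a b =>
    Finset.prod_le_one (fun p hp => (hfac p (Pr_prime hp)).1.le) (fun p hp => (hfac p (Pr_prime hp)).2)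
  have hn3r : (3 : ℝ) ≤ n₁ := by exact_mod_cast hn3
  have hlm : 0 < Real.log ((n₁ : ℝ) - 1) := Real.log_pos (by linarith)
  have hl3 : ∀ x : ℝ, 3 ≤ x → 1 ≤ Real.log x := by
    intro x hx
    rw [Real.le_log_iff_exp_le (by linarith)]
    have := Real.exp_one_lt_d9
    linarith
  have hln := hl3 n₁ hn3r
  set E : ℝ := K / Real.log ((n₁ : ℝ) - 1) + C / Real.log n₁ + 12 / n₁ with hE
  have hE0 : 0 ≤ E := by positivity
  refine ⟨VV Z 0 n₁ * Real.exp (-E), Real.exp E * Real.log n₁, by positivity, by positivity, ?_⟩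
  intro N hN
  have hN3 : (3 : ℝ) ≤ N := by exact_mod_cast hN
  have hlN := hl3 N hN3
  have hexpE : Real.exp (-E) ≤ 1 := by
    rw [Real.exp_le_one_iff]
    linarith
  have hexpE' : 1 ≤ Real.exp E := Real.one_le_exp hE0
  rcases le_total N n₁ with hNn | hNn
  · have h1 := Pool.Agent.Y843.HG.VV_anti (Z := Z) hNn (fun p _ => h.cl p)
    constructor
    · calc VV Z 0 n₁ * Real.exp (-E) / Real.log N ≤ VV Z 0 n₁ * 1 / 1 := by gcongr
        _ ≤ VV Z 0 N := by linarith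
    · rw [le_div_iff₀ (by linarith)]
      have h2 : Real.log N ≤ Real.log n₁ := Real.log_le_log (by linarith) (by exact_mod_cast hNn)
      calc VV Z 0 N * Real.log N ≤ 1 * Real.log n₁ := by
            apply mul_le_mul (hle1 _ _) h2 (by linarith) (by norm_num)
        _ ≤ Real.exp E * Real.log n₁ := by gcongr
  · rw [← Pool.Agent.Y843.HS.VV_split Z (Nat.zero_le n₁) hNn]
    have h1 := abs_le.1 (hn₁ n₁ le_rfl N hNn)
    have h2 := abs_le.1 (hC n₁ N (by omega) hNn)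
    have hS : (Ioc n₁ N).filter Nat.Prime = Pr n₁ N := rfl
    rw [hS] at h1 h2
    have h3 : VV Z n₁ N ≤ Real.exp (-∑ p ∈ Pr n₁ N, ((Z p).card : ℝ) / p) := by
      rw [← sum_neg_distrib, Real.exp_sum]
      apply prod_le_prod (fun p hp => (hfac p (Pr_prime hp)).1.le)
      intro p _
      have := Real.add_one_le_exp (-(((Z p).card : ℝ) / p))
      linarith
    have h4 : Real.exp (-(∑ p ∈ Pr n₁ N, ((Z p).card : ℝ) / p + 12 / n₁)) ≤ VV Z n₁ N := by
      have h5 : Real.exp (-∑ p ∈ Pr n₁ N, (((Z p).card : ℝ) / p + 3 * (((Z p).card : ℝ) / p) ^ 2)) ≤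
          VV Z n₁ N := by
        rw [← sum_neg_distrib, Real.exp_sum]
        apply prod_le_prod (fun p _ => (Real.exp_pos _).le)
        intro p hp
        have hp' := Pr_mem.1 hp
        have hp3 : (3 : ℝ) ≤ p := by exact_mod_cast (by omega : 3 ≤ p)
        apply fac_lo (by positivity)
        rw [div_le_div_iff₀ (by linarith) (by norm_num)]
        have : ((Z p).card : ℝ) ≤ 2 := by exact_mod_cast h.two p hp'.2
        nlinarith
      refine le_trans ?_ h5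
      rw [Real.exp_le_exp, neg_le_neg_iff, sum_add_distrib]
      have h6 := Pool.Agent.Y655.TC.sum_sq_le n₁ N (by omega) hNn
      have h7 : ∑ p ∈ Pr n₁ N, 3 * (((Z p).card : ℝ) / p) ^ 2 ≤
          3 * ∑ p ∈ (Ioc n₁ N).filter Nat.Prime, 4 / (p : ℝ) ^ 2 := by
        rw [mul_sum]
        apply sum_le_sum
        intro p hp
        have hp' := Pr_mem.1 hp
        have hp0 : (0 : ℝ) < p := by exact_mod_cast hp'.2.pos
        have h8 : ((Z p).card : ℝ) ≤ 2 := by exact_mod_cast h.two p hp'.2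
        rw [div_pow]
        have h9 : ((Z p).card : ℝ) ^ 2 ≤ 4 := by nlinarith [Nat.cast_nonneg (α := ℝ) (Z p).card]
        gcongr
      have h8 : 3 * (4 / (n₁ : ℝ)) = 12 / n₁ := by ring
      linarith
    have hratio : 0 < Real.log N / Real.log n₁ := by positivity
    constructor
    · have h5 : Real.exp (-E) / Real.log N ≤ VV Z n₁ N := by
        refine le_trans ?_ h4
        have h6 : Real.exp (-(E + Real.log (Real.log N / Real.log n₁))) ≤
            Real.exp (-(∑ p ∈ Pr n₁ N, ((Z p).card : ℝ) / p + 12 / n₁)) := by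
          rw [Real.exp_le_exp]
          rw [hE]
          linarith [h1.2, h2.2]
        refine le_trans ?_ h6
        have e1 : Real.exp (-(E + Real.log (Real.log N / Real.log n₁))) =
            Real.exp (-E) * (Real.log n₁ / Real.log N) := by
          rw [neg_add, Real.exp_add, Real.exp_neg (Real.log _), Real.exp_log hratio, inv_div]
        rw [e1, div_eq_mul_one_div]
        apply mul_le_mul_of_nonneg_left _ (Real.exp_pos _).le
        exact div_le_div_of_nonneg_right hln (by linarith)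
      calc VV Z 0 n₁ * Real.exp (-E) / Real.log N = VV Z 0 n₁ * (Real.exp (-E) / Real.log N) := by ring
        _ ≤ VV Z 0 n₁ * VV Z n₁ N := mul_le_mul_of_nonneg_left h5 hP0.le
    · have h5 : VV Z n₁ N ≤ Real.exp E * Real.log n₁ / Real.log N := by
        refine h3.trans ?_
        have h6 : Real.exp (-∑ p ∈ Pr n₁ N, ((Z p).card : ℝ) / p) ≤
            Real.exp (E + -Real.log (Real.log N / Real.log n₁)) := by
          rw [Real.exp_le_exp, hE]
          have : (0 : ℝ) ≤ 12 / n₁ := by positivity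
          linarith [h1.1, h2.1]
        refine h6.trans (le_of_eq ?_)
        rw [Real.exp_add, Real.exp_neg (Real.log _), Real.exp_log hratio, inv_div, mul_div_assoc']
      have h6 : 0 ≤ VV Z n₁ N := prod_nonneg fun p hp => (hfac p (Pr_prime hp)).1.le
      calc VV Z 0 n₁ * VV Z n₁ N ≤ 1 * VV Z n₁ N := mul_le_mul_of_nonneg_right (hle1 _ _) h6
        _ ≤ _ := by rw [one_mul]; exact h5

end Pool.Agent.Y843.QD
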