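import Pool.Agent.Y843.HG.Prs
import Pool.Agent.Y843.HS.Top

/-!
# The number of the integers of an interval outside of arbitrary classes
-/

set_option autoImplicit false

namespace Pool.Agent.Y843.QD

open Finset Filter
open Pool.Agent.Y843.HS
open Pool.Agent.Y843.HG (VV_low VV_anti log_floor)

/-- admissible sets of at most `r` classes for the primes up to `Y` -/
def Ad (r Y : ℕ) (Z : ℕ → Finset ℕ) : Prop :=
  ∀ p ∈ Pr 0 Y, (Z p).card ≤ r ∧ (Z p).card < p ∧ ∀ c ∈ Z p, c < p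

open Classical in
/-- the integers of `(A, A + X]` outside of the classes modulo the primes `p ≤ Y` -/
noncomputable def SZ (Z : ℕ → Finset ℕ) (A X Y : ℕ) : Finset ℕ :=
  (Ioc A (A + X)).filter (fun n => ∀ p ∈ Pr 0 Y, n % p ∉ Z p)

theorem low_count (r : ℕ) : ∃ t : ℕ, 1 ≤ t ∧ ∃ c : ℝ, 0 < c ∧ ∃ X₀ : ℕ, ∀ X : ℕ, X₀ ≤ X → ∀ A : ℕ,
    ∀ Z : ℕ → Finset ℕ, Ad r ⌊(X : ℝ) ^ (1 / (t : ℝ))⌋₊ Z →
      c * X * VV Z 0 ⌊(X : ℝ) ^ (1 / (t : ℝ))⌋₊ ≤
        ((SZ Z A X ⌊(X : ℝ) ^ (1 / (t : ℝ))⌋₊).card : ℝ) := by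
  classical
  obtain ⟨C, hC1, hC⟩ := Pool.Agent.Y151.HS.flc
  set s := C * (r + 1) with hs
  have hs1 : 1 ≤ s := Nat.mul_pos hC1 (by omega)
  set m₀ := ∏ p ∈ Pr 0 s, p with hm₀
  have hm₀1 : 1 ≤ m₀ := Nat.one_le_iff_ne_zero.2 (prod_ne_zero_iff.2 fun p hp => (Pr_prime hp).ne_zero)
  have hm₀r : (0 : ℝ) < m₀ := by exact_mod_cast hm₀1
  have hm₀d : ∀ p : ℕ, p.Prime → (p ≤ s ↔ p ∣ m₀) := by
    intro p hp
    constructor
    · intro h
      exact dvd_prod_of_mem _ (Pr_mem.2 ⟨⟨hp.pos, h⟩, hp⟩)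
    · intro h
      rw [hm₀, hp.prime.dvd_finsetProd_iff] at h
      obtain ⟨q, hq, hpq⟩ := h
      rw [(Nat.prime_dvd_prime_iff_eq hp (Pr_prime hq)).1 hpq]
      exact (Pr_mem.1 hq).1.2
  have hCs : 1 ≤ C * s := Nat.mul_pos hC1 hs1
  set t := 4 * (C * s) with ht
  have ht1 : 1 ≤ t := by omega
  have ht0 : (0 : ℝ) < t := by exact_mod_cast ht1
  obtain ⟨cV, hcV, hV⟩ := VV_low r
  obtain ⟨X₃, hX₃⟩ := log_floor t ht1
  have hlarge : ∃ X₄ : ℕ, ∀ X : ℕ, X₄ ≤ X → (2 * r + 3 + s + 1 : ℝ) ≤ (X : ℝ) ^ (1 / (t : ℝ)) ∧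
      (X : ℝ) ^ (1 / 2 : ℝ) ≤ 1 / (4 * m₀) * X * (cV / Real.log X ^ (2 * r)) := by
    have e1 : ∀ᶠ x : ℝ in atTop, (2 * r + 3 + s + 1 : ℝ) ≤ x ^ (1 / (t : ℝ)) :=
      (tendsto_rpow_atTop (by positivity)).eventually (eventually_ge_atTop _)
    have e3 : ∀ᶠ x : ℝ in atTop, ‖Real.log x‖ ≤ 1 * ‖x ^ (1 / (4 * (2 * r + 1)) : ℝ)‖ :=
      (isLittleO_log_rpow_atTop (by positivity)).bound one_pos
    have e4 : ∀ᶠ x : ℝ in atTop, 4 * m₀ / cV ≤ x ^ (1 / 4 : ℝ) :=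
      (tendsto_rpow_atTop (by norm_num)).eventually (eventually_ge_atTop _)
    have e5 : ∀ᶠ x : ℝ in atTop, x ^ (1 / 2 : ℝ) ≤ 1 / (4 * m₀) * x * (cV / Real.log x ^ (2 * r)) := by
      filter_upwards [e3, e4, eventually_ge_atTop (1 : ℝ),
        Real.tendsto_log_atTop.eventually (eventually_ge_atTop (1 : ℝ))] with x h3 h4 h5 h6
      have hx0 : 0 < x := by linarith
      have hl0 : 0 < Real.log x := by linarith
      have a2 : Real.log x ^ (2 * r) ≤ x ^ (1 / 4 : ℝ) := by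
        rw [one_mul, Real.norm_of_nonneg hl0.le, Real.norm_of_nonneg (by positivity)] at h3
        calc Real.log x ^ (2 * r) ≤ (x ^ (1 / (4 * (2 * r + 1)) : ℝ)) ^ (2 * r) :=
              pow_le_pow_left₀ hl0.le h3 _
          _ = x ^ ((1 / (4 * (2 * r + 1)) : ℝ) * (2 * r : ℕ)) := by
              rw [← Real.rpow_natCast, ← Real.rpow_mul hx0.le]
          _ ≤ x ^ (1 / 4 : ℝ) := by
              apply Real.rpow_le_rpow_of_exponent_le h5
              push_cast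
              rw [div_mul_eq_mul_div, one_mul, div_le_div_iff₀ (by positivity) (by norm_num)]
              nlinarith
      have a6 : 1 / (4 * m₀) * x * (cV / x ^ (1 / 4 : ℝ)) ≤
          1 / (4 * m₀) * x * (cV / Real.log x ^ (2 * r)) := by
        apply mul_le_mul_of_nonneg_left _ (by positivity)
        exact div_le_div_of_nonneg_left hcV.le (by positivity) a2
      refine le_trans ?_ a6
      rw [div_le_iff₀ hcV] at h4
      have e : x = x ^ (1 / 2 : ℝ) * x ^ (1 / 4 : ℝ) * x ^ (1 / 4 : ℝ) := by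
        rw [← Real.rpow_add hx0, ← Real.rpow_add hx0]
        norm_num
      have e' : 1 / (4 * m₀) * x * (cV / x ^ (1 / 4 : ℝ)) =
          x ^ (1 / 2 : ℝ) * (x ^ (1 / 4 : ℝ) * cV / (4 * m₀)) := by
        nth_rewrite 1 [e]
        field_simp
      rw [e']
      apply le_mul_of_one_le_right (by positivity)
      rw [le_div_iff₀ (by positivity)]
      linarith
    have e6 := (tendsto_natCast_atTop_atTop (R := ℝ)).eventually (e1.and e5)
    rw [eventually_atTop] at e6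
    exact e6
  obtain ⟨X₄, hX₄⟩ := hlarge
  refine ⟨t, ht1, 1 / (4 * m₀), by positivity, max X₃ (max X₄ (2 ^ (2 * (C * s)))), ?_⟩
  intro X hX A Z hZ
  have hXX₃ : X₃ ≤ X := (le_max_left _ _).trans hX
  have hXX₄ : X₄ ≤ X := (le_max_left _ _).trans ((le_max_right _ _).trans hX)
  have hXX₅ : 2 ^ (2 * (C * s)) ≤ X := (le_max_right _ _).trans ((le_max_right _ _).trans hX)
  obtain ⟨hL1, hL2⟩ := hX₄ X hXX₄
  obtain ⟨hY2, hlogY⟩ := hX₃ X hXX₃
  have hX1 : 1 ≤ X := (Nat.one_le_pow _ _ (by norm_num)).trans hXX₅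
  have hXr : (1 : ℝ) ≤ X := by exact_mod_cast hX1
  have hX0 : (0 : ℝ) < X := by linarith
  set w := (X : ℝ) ^ (1 / (t : ℝ)) with hw
  set Y := ⌊w⌋₊ with hY
  have hw0 : 0 ≤ w := by positivity
  have hYw : (Y : ℝ) ≤ w := Nat.floor_le hw0
  have hsY : 2 * r + 3 + s ≤ Y := by
    rw [hY]
    apply Nat.le_floor
    push_cast
    linarith
  have hYX : Y ≤ X := by
    have h1 : w ≤ X := by
      calc w ≤ (X : ℝ) ^ (1 : ℝ) := by
            apply Real.rpow_le_rpow_of_exponent_le hXr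
            rw [div_le_one ht0]
            exact_mod_cast ht1
        _ = X := Real.rpow_one _
    have h2 : (Y : ℝ) ≤ X := hYw.trans h1
    exact_mod_cast h2
  -- the level
  obtain ⟨J, _, hJ1, hJ2⟩ := exists_cross
    (P := fun J => ((2 ^ 2 ^ J) ^ (C * s)) ^ 2 ≤ X) (a := 0) (b := X) (Nat.zero_le _)
    (by
      refine le_trans (le_of_eq ?_) hXX₅
      rw [pow_zero, pow_one, ← pow_mul, mul_comm]) (by
      rw [not_le]
      calc X < 2 ^ X := Nat.lt_two_pow_self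
        _ ≤ 2 ^ 2 ^ X := Nat.pow_le_pow_right (by norm_num) Nat.lt_two_pow_self.le
        _ = (2 ^ 2 ^ X) ^ 1 := (pow_one _).symm
        _ ≤ (2 ^ 2 ^ X) ^ (C * s * 2) := Nat.pow_le_pow_right (by positivity) (by omega)
        _ = ((2 ^ 2 ^ X) ^ (C * s)) ^ 2 := by rw [pow_mul])
  rw [not_le] at hJ2
  set R := 2 ^ 2 ^ J with hR
  have hR0 : (0 : ℝ) < R := by exact_mod_cast (show 0 < R by rw [hR]; positivity)
  have hYR : Y ≤ R := by
    have h1 : (X : ℝ) < (R : ℝ) ^ t := by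
      have h2 : 2 ^ 2 ^ (J + 1) = R ^ 2 := by rw [hR, ← pow_mul, pow_succ]
      rw [h2, ← pow_mul, ← pow_mul] at hJ2
      have h3 : 2 * (C * s * 2) = t := by rw [ht]; ring
      rw [h3] at hJ2
      exact_mod_cast hJ2
    have h2 : w < R := by
      calc w < ((R : ℝ) ^ t) ^ (1 / (t : ℝ)) := Real.rpow_lt_rpow hX0.le h1 (by positivity)
        _ = R := by
            rw [← Real.rpow_natCast, ← Real.rpow_mul hR0.le, mul_one_div_cancel ht0.ne', Real.rpow_one]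
    have h3 : (Y : ℝ) ≤ R := by linarith
    exact_mod_cast h3
  -- the class modulo `m₀`
  have hsub : ∀ p ∈ Pr 0 s, p ∈ Pr 0 Y := by
    intro p hp
    rw [Pr_mem] at hp ⊢
    exact ⟨⟨hp.1.1, by omega⟩, hp.2⟩
  obtain ⟨a, ha⟩ : ∃ a : ℕ, ∀ p ∈ Pr 0 s, a % p ∉ Z p := by
    have h1 := card_res (Pr 0 s) (fun p hp => Pr_prime hp) (fun p => (range p).filter (fun c => c ∉ Z p))
      (fun p _ c hc => mem_range.1 (mem_filter.1 hc).1)
    have h2 : 0 < ∏ p ∈ Pr 0 s, ((range p).filter (fun c => c ∉ Z p)).card := by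
      apply prod_pos
      intro p hp
      rw [card_pos]
      by_contra hcon
      rw [not_nonempty_iff_eq_empty, filter_eq_empty_iff] at hcon
      have h3 : range p ⊆ Z p := fun c hc => not_not.1 (hcon hc)
      have h4 := card_le_card h3
      rw [card_range] at h4
      have := (hZ p (hsub p hp)).2.1
      omega
    rw [← h1, card_pos] at h2
    obtain ⟨a, ha⟩ := h2
    rw [mem_filter] at ha
    exact ⟨a, fun p hp => (mem_filter.1 (ha.2 p hp)).2⟩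
  set Z' : ℕ → Finset ℕ := fun p => if p ≤ Y then Z p else ∅ with hZ'
  have hZY : ∀ p ∈ Pr s R, p ≤ Y → p ∈ Pr 0 Y := by
    intro p hp hpY
    rw [Pr_mem] at hp ⊢
    exact ⟨⟨by omega, hpY⟩, hp.2⟩
  have hSv : Sv r s (2 ^ 2 ^ J) Z' := by
    intro p hp
    rw [hZ']
    by_cases h : p ≤ Y
    · simp only [if_pos h]
      obtain ⟨h1, _, h4⟩ := hZ p (hZY p hp h)
      exact ⟨h1, h4⟩
    · simp [if_neg h]
  have hmain := hC r s s J le_rfl le_rfl Z' hSv m₀ a A X hm₀1 (by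
    intro p hp h
    have h1 := (hm₀d p (Pr_prime hp)).2 h
    have := (Pr_mem.1 hp).1.1
    omega)
  rw [← hR] at hmain
  -- the product
  set Pp := ∏ p ∈ Pr s R, (1 - ((Z' p).card : ℝ) / p) with hPp
  have hfac : ∀ p ∈ Pr 0 Y, 0 ≤ 1 - ((Z p).card : ℝ) / p ∧ 1 - ((Z p).card : ℝ) / p ≤ 1 := by
    intro p hp
    refine ⟨one_sub_nonneg (hZ p hp).2.2, ?_⟩
    have : (0 : ℝ) ≤ ((Z p).card : ℝ) / p := by positivity
    linarith
  have hPp1 : VV Z 0 Y ≤ Pp := by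
    have e1 : Pp = VV Z s Y := by
      rw [hPp]
      have e2 : Pr s Y ⊆ Pr s R := by
        intro p hp
        rw [Pr_mem] at hp ⊢
        exact ⟨⟨hp.1.1, by omega⟩, hp.2⟩
      unfold VV
      rw [← prod_subset e2]
      · apply prod_congr rfl
        intro p hp
        rw [hZ']
        simp only [if_pos (Pr_mem.1 hp).1.2]
      · intro p hp hp'
        rw [hZ']
        have : ¬ p ≤ Y := by
          intro h
          apply hp'
          rw [Pr_mem] at hp ⊢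
          exact ⟨⟨hp.1.1, h⟩, hp.2⟩
        simp [if_neg this]
    rw [e1, ← VV_split Z (Nat.zero_le s) (show s ≤ Y by omega)]
    apply mul_le_of_le_one_left
    · apply prod_nonneg
      intro p hp
      exact (hfac p (by rw [Pr_mem] at hp ⊢; exact ⟨⟨by omega, hp.1.2⟩, hp.2⟩)).1
    · exact Finset.prod_le_one (fun p hp => (hfac p (hsub p hp)).1) (fun p hp => (hfac p (hsub p hp)).2)
  have hPp0 : 0 ≤ Pp := by
    refine le_trans ?_ hPp1
    exact prod_nonneg fun p hp => (hfac p hp).1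
  -- the count
  have hcount : (((Ioc A (A + X)).filter (fun x => x % m₀ = a % m₀ ∧ ∀ p ∈ Pr s R, x % p ∉ Z' p)).card : ℝ) ≤
      ((SZ Z A X Y).card : ℝ) := by
    have : (Ioc A (A + X)).filter (fun x => x % m₀ = a % m₀ ∧ ∀ p ∈ Pr s R, x % p ∉ Z' p) ⊆ SZ Z A X Y := by
      intro n hn
      rw [mem_filter] at hn
      obtain ⟨h1, h2, h3⟩ := hn
      unfold SZ
      rw [mem_filter]
      refine ⟨h1, ?_⟩
      intro p hp
      rcases le_or_gt p s with h | h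
      · have hp' : p ∈ Pr 0 s := by
          rw [Pr_mem] at hp ⊢
          exact ⟨⟨hp.1.1, h⟩, hp.2⟩
        have h4 : n % p = a % p := by
          have : p ∣ m₀ := (hm₀d p (Pr_prime hp)).1 h
          rw [← Nat.mod_mod_of_dvd n this, h2, Nat.mod_mod_of_dvd a this]
        rw [h4]
        exact ha p hp'
      · have hp' : p ∈ Pr s R := by
          rw [Pr_mem] at hp ⊢
          exact ⟨⟨h, by omega⟩, hp.2⟩
        have h4 := h3 p hp'
        rw [hZ'] at h4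
        simp only [if_pos (Pr_mem.1 hp).1.2] at h4
        exact h4
    exact_mod_cast card_le_card this
  have hpow : (1 / 2 : ℝ) ^ s ≤ 1 / 2 := by
    calc (1 / 2 : ℝ) ^ s ≤ (1 / 2 : ℝ) ^ 1 := pow_le_pow_of_le_one (by norm_num) (by norm_num) hs1
      _ = 1 / 2 := pow_one _
  have hRC : (R : ℝ) ^ (C * s) ≤ (X : ℝ) ^ (1 / 2 : ℝ) := by
    have h1 : ((R : ℝ) ^ (C * s)) ^ 2 ≤ X := by exact_mod_cast hJ1
    rw [← Real.sqrt_eq_rpow]
    exact Real.le_sqrt_of_sq_le h1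
  have hVl := hV Y (by omega) Z hZ
  have hlY : 0 < Real.log Y := Real.log_pos (by exact_mod_cast (show 1 < Y by omega))
  have hlYX : Real.log Y ≤ Real.log X := by
    apply Real.log_le_log (by exact_mod_cast (show 0 < Y by omega))
    exact_mod_cast hYX
  have hVl2 : cV / Real.log X ^ (2 * r) ≤ VV Z 0 Y := by
    refine le_trans ?_ hVl
    apply div_le_div_of_nonneg_left hcV.le (by positivity)
    exact pow_le_pow_left₀ hlY.le hlYX _
  have hRcast : ((2 : ℝ) ^ 2 ^ J) = (R : ℝ) := by rw [hR]; push_cast; rfl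
  rw [hRcast] at hmain
  have hcount2 : (((Ioc A (A + X)).filter (fun x => x % m₀ = a % m₀ ∧ ∀ p ∈ Pr s R, x % p ∉ Z' p)).card : ℝ) ≥
      (X : ℝ) / m₀ * Pp - ((1 / 2 : ℝ) ^ s * ((X : ℝ) / m₀ * Pp) + (R : ℝ) ^ (C * s)) := by
    have h1 := (abs_le.1 hmain).1
    have e : ∀ (u v : ℝ), -v ≤ u - (X : ℝ) / m₀ * Pp → u ≥ (X : ℝ) / m₀ * Pp - v := by
      intro u v h
      linarith
    convert e _ _ h1 using 4
  have h2 : 0 ≤ (X : ℝ) / m₀ * Pp := by positivity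
  have h3 : (1 / 2 : ℝ) ^ s * ((X : ℝ) / m₀ * Pp) ≤ 1 / 2 * ((X : ℝ) / m₀ * Pp) :=
    mul_le_mul_of_nonneg_right hpow h2
  have h4 : (X : ℝ) / m₀ * VV Z 0 Y ≤ (X : ℝ) / m₀ * Pp := mul_le_mul_of_nonneg_left hPp1 (by positivity)
  have h5 : (X : ℝ) ^ (1 / 2 : ℝ) ≤ 1 / (4 * m₀) * X * VV Z 0 Y :=
    hL2.trans (mul_le_mul_of_nonneg_left hVl2 (by positivity))
  have e1 : (X : ℝ) / m₀ * VV Z 0 Y = 4 * (1 / (4 * m₀) * X * VV Z 0 Y) := by
    field_simp
  linarith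

end Pool.Agent.Y843.QD
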