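import Pool.Agent.Y843.QD.Lin

/-!
# The roots of a quadratic polynomial modulo the primes
-/

set_option autoImplicit false

namespace Pool.Agent.Y843.QD

open Finset Filter

/-- the roots of `α n ^ 2 + β n + γ` modulo `p` -/
def Zq (α β γ : ℤ) (p : ℕ) : Finset ℕ :=
  (range p).filter (fun n : ℕ => (p : ℤ) ∣ α * (n : ℤ) ^ 2 + β * n + γ)

theorem mem_Zq {α β γ : ℤ} {p : ℕ} (hp : 0 < p) (n : ℕ) :
    n % p ∈ Zq α β γ p ↔ (p : ℤ) ∣ α * (n : ℤ) ^ 2 + β * n + γ := by
  unfold Zq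
  rw [mem_filter, mem_range]
  have h1 : ((n % p : ℕ) : ℤ) ≡ n [ZMOD p] := by
    have := Nat.mod_modEq n p
    exact (Int.natCast_modEq_iff).2 this
  have h2 : α * ((n % p : ℕ) : ℤ) ^ 2 + β * ((n % p : ℕ) : ℤ) + γ ≡ α * (n : ℤ) ^ 2 + β * n + γ [ZMOD p] :=
    ((h1.pow 2).mul_left α).add (h1.mul_left β) |>.add_right γ
  constructor
  · rintro ⟨_, h⟩
    exact (Int.ModEq.dvd_iff h2).1 h
  · intro h
    exact ⟨Nat.mod_lt _ hp, (Int.ModEq.dvd_iff h2).2 h⟩

/-- the roots in `ZMod p` -/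
theorem card_Zq (α β γ : ℤ) (p : ℕ) [Fact p.Prime] :
    (Zq α β γ p).card = (univ.filter (fun x : ZMod p => (α : ZMod p) * x ^ 2 + β * x + γ = 0)).card := by
  have key : ∀ n : ℕ, (p : ℤ) ∣ α * (n : ℤ) ^ 2 + β * n + γ ↔
      (α : ZMod p) * (n : ZMod p) ^ 2 + β * (n : ZMod p) + γ = 0 := by
    intro n
    rw [← ZMod.intCast_zmod_eq_zero_iff_dvd]
    push_cast
    rfl
  apply Finset.card_bij (fun (n : ℕ) _ => (n : ZMod p))
  · intro n hn
    unfold Zq at hn
    rw [mem_filter] at hn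
    rw [mem_filter]
    exact ⟨mem_univ _, (key n).1 hn.2⟩
  · intro t ht s hs h
    unfold Zq at ht hs
    rw [mem_filter, mem_range] at ht hs
    rw [ZMod.natCast_eq_natCast_iff'] at h
    rwa [Nat.mod_eq_of_lt ht.1, Nat.mod_eq_of_lt hs.1] at h
  · intro x hx
    rw [mem_filter] at hx
    refine ⟨x.val, ?_, ZMod.natCast_zmod_val x⟩
    unfold Zq
    rw [mem_filter, mem_range]
    refine ⟨ZMod.val_lt x, (key _).2 ?_⟩
    rw [ZMod.natCast_zmod_val]
    exact hx.2

theorem card_Zq_eq (α β γ : ℤ) (p : ℕ) (hp : p.Prime) (hp2 : p ≠ 2) (hα : ¬ (p : ℤ) ∣ α) :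
    ((Zq α β γ p).card : ℤ) = 1 + jacobiSym (β ^ 2 - 4 * α * γ) p := by
  have : Fact p.Prime := ⟨hp⟩
  have h2 : (2 : ZMod p) ≠ 0 := by
    intro h
    have h3 : ((2 : ℕ) : ZMod p) = 0 := by exact_mod_cast h
    rw [ZMod.natCast_eq_zero_iff] at h3
    exact hp2 ((Nat.prime_dvd_prime_iff_eq hp Nat.prime_two).1 h3)
  have ha : (α : ZMod p) ≠ 0 := by
    intro h
    exact hα ((ZMod.intCast_zmod_eq_zero_iff_dvd α p).1 h)
  rw [card_Zq, ← jacobiSym.legendreSym.to_jacobiSym, add_comm, ← legendreSym.card_sqrts p hp2]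
  congr 1
  apply Finset.card_bij (fun (x : ZMod p) _ => 2 * (α : ZMod p) * x + β)
  · intro x hx
    rw [mem_filter] at hx
    rw [Set.mem_toFinset, Set.mem_ofPred_eq]
    push_cast
    linear_combination 4 * (α : ZMod p) * hx.2
  · intro x _ y _ h
    have h3 : 2 * (α : ZMod p) * (x - y) = 0 := by linear_combination h
    have h4 : 2 * (α : ZMod p) ≠ 0 := mul_ne_zero h2 ha
    exact sub_eq_zero.1 ((mul_eq_zero.1 h3).resolve_left h4)
  · intro y hy
    rw [Set.mem_toFinset, Set.mem_ofPred_eq] at hy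
    push_cast at hy
    have h4 : 2 * (α : ZMod p) ≠ 0 := mul_ne_zero h2 ha
    refine ⟨(y - β) * (2 * (α : ZMod p))⁻¹, ?_, ?_⟩
    · rw [mem_filter]
      refine ⟨mem_univ _, ?_⟩
      have h5 : 2 * (α : ZMod p) * ((y - β) * (2 * (α : ZMod p))⁻¹) = y - β := by
        field_simp
      have h6 : 4 * (α : ZMod p) * ((α : ZMod p) * ((y - β) * (2 * (α : ZMod p))⁻¹) ^ 2 +
          β * ((y - β) * (2 * (α : ZMod p))⁻¹) + γ) = 0 := by
        have : 4 * (α : ZMod p) * ((α : ZMod p) * ((y - β) * (2 * (α : ZMod p))⁻¹) ^ 2 +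
          β * ((y - β) * (2 * (α : ZMod p))⁻¹) + γ) =
          (2 * (α : ZMod p) * ((y - β) * (2 * (α : ZMod p))⁻¹)) ^ 2 +
          2 * β * (2 * (α : ZMod p) * ((y - β) * (2 * (α : ZMod p))⁻¹)) + 4 * α * γ := by ring
        rw [this, h5]
        linear_combination hy
      have h7 : 4 * (α : ZMod p) ≠ 0 := by
        have : 4 * (α : ZMod p) = 2 * (2 * α) := by ring
        rw [this]
        exact mul_ne_zero h2 h4
      exact (mul_eq_zero.1 h6).resolve_left h7
    · field_simp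
      ring

theorem card_Zq_le (α β γ : ℤ) (hadm : ∀ p : ℕ, p.Prime → ∃ n : ℕ, ¬ (p : ℤ) ∣ α * (n : ℤ) ^ 2 + β * n + γ)
    (p : ℕ) (hp : p.Prime) : (Zq α β γ p).card ≤ 2 ∧ (Zq α β γ p).card < p := by
  have : Fact p.Prime := ⟨hp⟩
  have hlt : (Zq α β γ p).card < p := by
    obtain ⟨n, hn⟩ := hadm p hp
    rw [← mem_Zq hp.pos] at hn
    have h1 : Zq α β γ p ⊂ range p := by
      rw [Finset.ssubset_iff_subset_ne]
      refine ⟨filter_subset _ _, ?_⟩
      intro h
      apply hn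
      rw [h, mem_range]
      exact Nat.mod_lt _ hp.pos
    have := card_lt_card h1
    rwa [card_range] at this
  refine ⟨?_, hlt⟩
  by_cases hp2 : p = 2
  · omega
  by_cases hα : (p : ℤ) ∣ α
  · have ha : (α : ZMod p) = 0 := (ZMod.intCast_zmod_eq_zero_iff_dvd α p).2 hα
    rw [card_Zq]
    by_cases hβ : (β : ZMod p) = 0
    · have hγ : (γ : ZMod p) ≠ 0 := by
        intro h
        obtain ⟨n, hn⟩ := hadm p hp
        apply hn
        rw [← ZMod.intCast_zmod_eq_zero_iff_dvd]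
        push_cast
        rw [ha, hβ, h]
        ring
      have : (univ.filter (fun x : ZMod p => (α : ZMod p) * x ^ 2 + β * x + γ = 0)) = ∅ := by
        apply filter_false_of_mem
        intro x _ h
        rw [ha, hβ] at h
        apply hγ
        linear_combination h
      rw [this]
      simp
    · refine le_trans (Finset.card_le_one.2 ?_) (by norm_num)
      intro x hx y hy
      rw [mem_filter] at hx hy
      rw [ha] at hx hy
      have h3 : (β : ZMod p) * (x - y) = 0 := by linear_combination hx.2 - hy.2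
      exact sub_eq_zero.1 ((mul_eq_zero.1 h3).resolve_left hβ)
  · have h1 := card_Zq_eq α β γ p hp hp2 hα
    have h2 : jacobiSym (β ^ 2 - 4 * α * γ) p ≤ 1 := by
      rcases jacobiSym.trichotomy (β ^ 2 - 4 * α * γ) p with h | h | h <;> rw [h] <;> norm_num
    omega

/-- an irreducible quadratic polynomial without fixed prime divisor -/
theorem lin_quad (α β γ : ℤ) (hα : α ≠ 0) (hD : ¬ IsSquare (β ^ 2 - 4 * α * γ))
    (hadm : ∀ p : ℕ, p.Prime → ∃ n : ℕ, ¬ (p : ℤ) ∣ α * (n : ℤ) ^ 2 + β * n + γ) :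
    Lin (Zq α β γ) := by
  refine ⟨fun p hp => (card_Zq_le α β γ hadm p hp).1, fun p hp => (card_Zq_le α β γ hadm p hp).2, ?_, ?_⟩
  · intro p c hc
    unfold Zq at hc
    rw [mem_filter, mem_range] at hc
    exact hc.1
  · obtain ⟨n₀, hn₀⟩ := Pool.Agent.W468.ConjF.tail 1
    set D : ℤ := β ^ 2 - 4 * α * γ with hDd
    refine ⟨140, max (max n₀ ⌈Real.exp (4 * D.natAbs)⌉₊) (α.natAbs + 3), by norm_num, by omega, fun A hA N hAN => ?_⟩
    have hA0 : n₀ ≤ A := ((le_max_left _ _).trans (le_max_left _ _)).trans hA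
    have hA1 : ⌈Real.exp (4 * D.natAbs)⌉₊ ≤ A := ((le_max_right _ _).trans (le_max_left _ _)).trans hA
    have hA2 : α.natAbs + 3 ≤ A := (le_max_right _ _).trans hA
    have hA3 : (0 : ℝ) < A := by exact_mod_cast (by omega : 0 < A)
    have hlog : (4 : ℝ) * D.natAbs ≤ Real.log A := by
      rw [Real.le_log_iff_exp_le hA3]
      exact (Nat.le_ceil _).trans (by exact_mod_cast hA1)
    have t := hn₀ A hA0 D hD (by rw [pow_one]; exact hlog) N hAN
    rw [← sum_sub_distrib]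
    refine le_trans (le_of_eq ?_) t
    congr 1
    apply sum_congr rfl
    intro p hp
    rw [mem_filter, mem_Ioc] at hp
    have h1 := card_Zq_eq α β γ p hp.2 (by omega) (by
      intro h
      have h3 : p ∣ α.natAbs := Int.natCast_dvd.1 h
      have h4 := Nat.le_of_dvd (Int.natAbs_pos.2 hα) h3
      omega)
    have h2 : ((Zq α β γ p).card : ℝ) = 1 + (jacobiSym D p : ℝ) := by exact_mod_cast h1
    rw [h2]
    ring

end Pool.Agent.Y843.QD
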