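import Pool.Agent.Y843.QD.Srv
import Pool.Agent.Y843.QD.Root

/-!
# Values of a quadratic polynomial with at most three prime factors
-/

set_option autoImplicit false

namespace Pool.Agent.Y843.QD

open Finset Pool.Agent.W23.DC Pool.Agent.Y660.RP Pool.Agent.Y675.TC Filter
open Pool.Agent.Y843.HS (Pr VV Pr_mem Pr_prime)

/-- the absolute value of the polynomial -/
def qv (α β γ : ℤ) (n : ℕ) : ℕ := (α * (n : ℤ) ^ 2 + β * n + γ).natAbs

theorem dvd_qv {α β γ : ℤ} {p n : ℕ} : p ∣ qv α β γ n ↔ (p : ℤ) ∣ α * (n : ℤ) ^ 2 + β * n + γ :=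
  Int.natCast_dvd.symm

theorem qv_ne {α β γ : ℤ} (hD : ¬ IsSquare (β ^ 2 - 4 * α * γ)) (n : ℕ) : qv α β γ n ≠ 0 := by
  intro h
  have h1 : α * (n : ℤ) ^ 2 + β * n + γ = 0 := Int.natAbs_eq_zero.1 h
  apply hD
  refine ⟨2 * α * n + β, ?_⟩
  linear_combination (-4 * α) * h1

theorem qv_le (α β γ : ℤ) (n m : ℕ) (h : n ≤ m) (hm : 1 ≤ m) :
    qv α β γ n ≤ (α.natAbs + β.natAbs + γ.natAbs) * m ^ 2 := by
  have h1 : ((qv α β γ n : ℕ) : ℤ) ≤ (α.natAbs + β.natAbs + γ.natAbs) * (m : ℤ) ^ 2 := by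
    unfold qv
    rw [Int.natCast_natAbs]
    have e1 : |α * (n : ℤ) ^ 2 + β * n + γ| ≤ |α| * (n : ℤ) ^ 2 + |β| * n + |γ| := by
      refine (abs_add_le _ _).trans ?_
      refine add_le_add ((abs_add_le _ _).trans ?_) le_rfl
      rw [abs_mul, abs_mul, abs_of_nonneg (show (0 : ℤ) ≤ (n : ℤ) ^ 2 by positivity),
        abs_of_nonneg (show (0 : ℤ) ≤ (n : ℤ) by positivity)]
    have hn : (n : ℤ) ≤ m := by exact_mod_cast h
    have hm' : (1 : ℤ) ≤ m := by exact_mod_cast hm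
    have hn0 : (0 : ℤ) ≤ n := Int.natCast_nonneg n
    have e2 : (n : ℤ) ^ 2 ≤ (m : ℤ) ^ 2 := by nlinarith
    have e3 : (n : ℤ) ≤ (m : ℤ) ^ 2 := by nlinarith
    have e4 : (1 : ℤ) ≤ (m : ℤ) ^ 2 := by nlinarith
    rw [Int.natCast_natAbs, Int.natCast_natAbs, Int.natCast_natAbs]
    have := mul_le_mul_of_nonneg_left e2 (abs_nonneg α)
    have := mul_le_mul_of_nonneg_left e3 (abs_nonneg β)
    have := mul_le_mul_of_nonneg_left e4 (abs_nonneg γ)
    nlinarith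
  exact_mod_cast h1

open Classical in
/-- multiples of the square of a prime -/
theorem card_sq (α β γ : ℤ) (hadm : ∀ p : ℕ, p.Prime → ∃ n : ℕ, ¬ (p : ℤ) ∣ α * (n : ℤ) ^ 2 + β * n + γ)
    (A X p : ℕ) (hp : p.Prime) (hD : ¬ (p : ℤ) ∣ β ^ 2 - 4 * α * γ) :
    (((Ioc A (A + X)).filter (fun n => p ^ 2 ∣ qv α β γ n)).card : ℝ) ≤ 2 * ((X : ℝ) / (p : ℝ) ^ 2 + 1) := by
  set T := (Ioc A (A + X)).filter (fun n => p ^ 2 ∣ qv α β γ n) with hT
  have hmaps : ∀ n ∈ T, n % p ∈ Zq α β γ p := by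
    intro n hn
    rw [mem_Zq hp.pos, ← dvd_qv]
    exact (dvd_pow_self p (by norm_num)).trans (mem_filter.1 hn).2
  have h1 := card_eq_sum_card_fiberwise (f := fun n => n % p) (s := T) (t := Zq α β γ p) hmaps
  have hp2 : 0 < p ^ 2 := pow_pos hp.pos 2
  have h2 : ∀ c ∈ Zq α β γ p, ((T.filter (fun n => n % p = c)).card : ℝ) ≤ (X : ℝ) / (p : ℝ) ^ 2 + 1 := by
    intro c _
    rcases (T.filter (fun n => n % p = c)).eq_empty_or_nonempty with h | ⟨m, hm⟩
    · rw [h, card_empty, Nat.cast_zero]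
      positivity
    · rw [mem_filter, hT, mem_filter] at hm
      have hsub : T.filter (fun n => n % p = c) ⊆ (Ioc A (A + X)).filter (fun n => n ≡ m [MOD (p ^ 2)]) := by
        intro n hn
        rw [mem_filter, hT, mem_filter] at hn
        rw [mem_filter]
        refine ⟨hn.1.1, ?_⟩
        have a1 : ((p ^ 2 : ℕ) : ℤ) ∣ α * (n : ℤ) ^ 2 + β * n + γ := dvd_qv.1 hn.1.2
        have a2 : ((p ^ 2 : ℕ) : ℤ) ∣ α * (m : ℤ) ^ 2 + β * m + γ := dvd_qv.1 hm.1.2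
        have a3 : (n : ℤ) ≡ m [ZMOD p] := by
          rw [Int.natCast_modEq_iff]
          show n % p = m % p
          rw [hn.2, hm.2]
        have a4 : ((p ^ 2 : ℕ) : ℤ) ∣ ((m : ℤ) - n) * (α * ((n : ℤ) + m) + β) := by
          have := dvd_sub a2 a1
          have e : α * (m : ℤ) ^ 2 + β * m + γ - (α * (n : ℤ) ^ 2 + β * n + γ) =
              ((m : ℤ) - n) * (α * ((n : ℤ) + m) + β) := by ring
          rwa [e] at this
        have hpZ : Prime (p : ℤ) := Nat.prime_iff_prime_int.1 hp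
        have a5 : ¬ (p : ℤ) ∣ α * ((n : ℤ) + m) + β := by
          intro h
          apply hD
          have b1 : (p : ℤ) ∣ (m : ℤ) - n := a3.dvd
          have b2 : (p : ℤ) ∣ α * (n : ℤ) ^ 2 + β * n + γ := by
            refine dvd_trans ?_ a1
            push_cast
            exact dvd_pow_self _ (by norm_num)
          have b3 : (p : ℤ) ∣ 2 * α * n + β := by
            have : 2 * α * n + β = (α * ((n : ℤ) + m) + β) - α * (m - n) := by ring
            rw [this]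
            exact dvd_sub h (b1.mul_left _)
          have : β ^ 2 - 4 * α * γ = (2 * α * n + β) * (2 * α * n + β) - 4 * α * (α * (n : ℤ) ^ 2 + β * n + γ) := by
            ring
          rw [this]
          exact dvd_sub (b3.mul_left _) (b2.mul_left _)
        have a6 : IsCoprime (((p ^ 2 : ℕ) : ℤ)) (α * ((n : ℤ) + m) + β) := by
          push_cast
          apply IsCoprime.pow_left
          exact (Prime.coprime_iff_not_dvd hpZ).2 a5
        have a7 : ((p ^ 2 : ℕ) : ℤ) ∣ (m : ℤ) - n := a6.dvd_of_dvd_mul_right a4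
        exact (Nat.modEq_iff_dvd).2 a7
      have h3 := (abs_le.1 (card_class A X (p ^ 2) m hp2)).2
      have h4 : ((T.filter (fun n => n % p = c)).card : ℝ) ≤
          (((Ioc A (A + X)).filter (fun n => n ≡ m [MOD (p ^ 2)])).card : ℝ) := by
        exact_mod_cast card_le_card hsub
      push_cast at h3
      linarith
  rw [h1]
  push_cast
  calc ∑ c ∈ Zq α β γ p, ((T.filter (fun n => n % p = c)).card : ℝ)
      ≤ ∑ _c ∈ Zq α β γ p, ((X : ℝ) / (p : ℝ) ^ 2 + 1) := sum_le_sum h2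
    _ = ((Zq α β γ p).card : ℝ) * ((X : ℝ) / (p : ℝ) ^ 2 + 1) := by rw [sum_const, nsmul_eq_mul]
    _ ≤ 2 * ((X : ℝ) / (p : ℝ) ^ 2 + 1) := by
        apply mul_le_mul_of_nonneg_right _ (by positivity)
        exact_mod_cast (card_Zq_le α β γ hadm p hp).1

open Classical in
/-- the `n` of `(A, A + X]` for which the value has at most three prime factors, all of them
`≥ X ^ (1/4)` -/
noncomputable def P3 (α β γ : ℤ) (A X : ℕ) : Finset ℕ :=
  (Ioc A (A + X)).filter (fun n => (qv α β γ n).primeFactorsList.length ≤ 3 ∧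
    ∀ p : ℕ, p.Prime → p ∣ qv α β γ n → (X : ℝ) ^ (1 / 4 : ℝ) ≤ p)

theorem p3_quad (α β γ : ℤ) (hα : α ≠ 0) (hD : ¬ IsSquare (β ^ 2 - 4 * α * γ))
    (hadm : ∀ p : ℕ, p.Prime → ∃ n : ℕ, ¬ (p : ℤ) ∣ α * (n : ℤ) ^ 2 + β * n + γ) :
    ∃ c : ℝ, 0 < c ∧ ∃ X₀ : ℕ, ∀ X : ℕ, X₀ ≤ X → ∀ A : ℕ, (A : ℝ) ≤ (X : ℝ) ^ (301 / 300 : ℝ) →
      c * X / Real.log X ≤ ((P3 α β γ A X).card : ℝ) := by
  classical
  obtain ⟨c, hc, X₁, hX₁⟩ := p3w (lin_quad α β γ hα hD hadm)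
  set D : ℤ := β ^ 2 - 4 * α * γ with hDd
  set K : ℕ := α.natAbs + β.natAbs + γ.natAbs with hK
  have hK1 : 1 ≤ K := by
    have := Int.natAbs_pos.2 hα
    omega
  have hKr : (1 : ℝ) ≤ K := by exact_mod_cast hK1
  have hev1 : ∀ᶠ X : ℕ in atTop, (4 * K : ℝ) + D.natAbs + 2 ≤ (X : ℝ) ^ (1 / 300 : ℝ) :=
    ((tendsto_rpow_atTop (by norm_num)).comp tendsto_natCast_atTop_atTop).eventually_ge_atTop _
  have hev2 : ∀ᶠ X : ℕ in atTop, (Real.log X) ^ (1 : ℝ) ≤ c / 12 * (X : ℝ) ^ (3 / 100 : ℝ) := by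
    have h := (isLittleO_log_rpow_rpow_atTop (1 : ℝ) (show (0 : ℝ) < 3 / 100 by norm_num)).bound
      (show (0 : ℝ) < c / 12 by positivity)
    have h' := tendsto_natCast_atTop_atTop.eventually h
    filter_upwards [h', eventually_ge_atTop 3] with M hM hM3
    have hl : 0 ≤ Real.log M := Real.log_natCast_nonneg M
    rw [Real.norm_of_nonneg (by positivity), Real.norm_of_nonneg (by positivity)] at hM
    exact hM
  obtain ⟨X₂, hX₂⟩ := eventually_atTop.1 (hev1.and hev2)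
  refine ⟨c / 2, by positivity, max (max X₁ X₂) 3, fun X hX A hA => ?_⟩
  have hXX1 : X₁ ≤ X := ((le_max_left _ _).trans (le_max_left _ _)).trans hX
  have hXX2 : X₂ ≤ X := ((le_max_right _ _).trans (le_max_left _ _)).trans hX
  have hX3 : 3 ≤ X := (le_max_right _ _).trans hX
  have hX2 : 2 ≤ X := by omega
  obtain ⟨hbig, hlog⟩ := hX₂ X hXX2
  rw [Real.rpow_one] at hlog
  have hXr : (3 : ℝ) ≤ X := by exact_mod_cast hX3
  have hX0 : (0 : ℝ) < X := by linarith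
  have hX1 : (1 : ℝ) ≤ X := by linarith
  have hlX : 0 < Real.log X := Real.log_pos (by linarith)
  have hmono : ∀ {a b : ℝ}, a ≤ b → (X : ℝ) ^ a ≤ (X : ℝ) ^ b := fun h =>
    Real.rpow_le_rpow_of_exponent_le hX1 h
  have hG := hX₁ X hXX1 A
  -- the squares
  set P := pr X (1 / 4) (97 / 100) with hP
  set T : ℕ → Finset ℕ := fun p => (Ioc A (A + X)).filter (fun n => p ^ 2 ∣ qv α β γ n) with hT
  have hPD : ∀ p ∈ P, p.Prime ∧ (X : ℝ) ^ (1 / 4 : ℝ) ≤ p ∧ (p : ℝ) < (X : ℝ) ^ (97 / 100 : ℝ) ∧ ¬ (p : ℤ) ∣ D := by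
    intro p hp
    have hp' := mem_pr.1 hp
    have h1 := (le_tt_iff hX2 hp'.2.1 _).1 hp'.2.2.1
    have h2 := (tt_lt_iff hX2 hp'.2.1 _).1 hp'.2.2.2
    refine ⟨hp'.2.1, h1, h2, ?_⟩
    intro h3
    have hD0 : D ≠ 0 := by
      intro h0
      exact hD ⟨0, by rw [h0]; norm_num⟩
    have h4 : p ≤ D.natAbs := Nat.le_of_dvd (Int.natAbs_pos.2 hD0) (Int.natCast_dvd.1 h3)
    have h5 : (p : ℝ) ≤ D.natAbs := by exact_mod_cast h4
    have h6 : (X : ℝ) ^ (1 / 300 : ℝ) ≤ (X : ℝ) ^ (1 / 4 : ℝ) := hmono (by norm_num)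
    linarith
  have hsumT : ∑ p ∈ P, ((T p).card : ℝ) ≤ 6 * (X : ℝ) ^ (97 / 100 : ℝ) := by
    have h1 : ∀ p ∈ P, ((T p).card : ℝ) ≤ X / 2 * (4 / (p : ℝ) ^ 2) + 2 := by
      intro p hp
      obtain ⟨a1, _, _, a4⟩ := hPD p hp
      have := card_sq α β γ hadm A X p a1 a4
      refine this.trans (le_of_eq ?_)
      ring
    refine (sum_le_sum h1).trans ?_
    rw [sum_add_distrib, ← mul_sum, sum_const, nsmul_eq_mul]
    set B := ⌈(X : ℝ) ^ (1 / 4 : ℝ)⌉₊ - 1 with hB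
    have hx4 : (2 : ℝ) ≤ (X : ℝ) ^ (1 / 4 : ℝ) := by
      have h6 : (X : ℝ) ^ (1 / 300 : ℝ) ≤ (X : ℝ) ^ (1 / 4 : ℝ) := hmono (by norm_num)
      have : (0 : ℝ) ≤ D.natAbs := Nat.cast_nonneg _
      linarith
    have hB1 : (X : ℝ) ^ (1 / 4 : ℝ) - 1 ≤ B := by
      have h2 := Nat.le_ceil ((X : ℝ) ^ (1 / 4 : ℝ))
      have h3 : 1 ≤ ⌈(X : ℝ) ^ (1 / 4 : ℝ)⌉₊ := Nat.one_le_ceil_iff.2 (by linarith)
      rw [hB, Nat.cast_sub h3]
      push_cast
      linarith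
    have hBle : B ≤ X := by
      have h2 : ⌈(X : ℝ) ^ (1 / 4 : ℝ)⌉₊ ≤ X := by
        rw [Nat.ceil_le]
        have := hmono (show (1 / 4 : ℝ) ≤ 1 by norm_num)
        rwa [Real.rpow_one] at this
      omega
    have hB1' : 1 ≤ B := by
      have : (1 : ℝ) ≤ B := by linarith
      exact_mod_cast this
    have h2 : ∑ p ∈ P, 4 / (p : ℝ) ^ 2 ≤ 4 / (B : ℝ) := by
      refine le_trans ?_ (Pool.Agent.Y655.TC.sum_sq_le B X hB1' hBle)
      apply sum_le_sum_of_subset_of_nonneg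
      · intro p hp
        obtain ⟨a1, a2, _, _⟩ := hPD p hp
        rw [mem_filter, mem_Ioc]
        refine ⟨⟨?_, (mem_pr.1 hp).1.2⟩, a1⟩
        have h3 : ⌈(X : ℝ) ^ (1 / 4 : ℝ)⌉₊ ≤ p := Nat.ceil_le.2 a2
        have h4 : 1 ≤ ⌈(X : ℝ) ^ (1 / 4 : ℝ)⌉₊ := Nat.one_le_ceil_iff.2 (by linarith)
        omega
      · intro p _ _
        positivity
    have h3 : (4 : ℝ) / B ≤ 8 / (X : ℝ) ^ (1 / 4 : ℝ) := by
      rw [div_le_div_iff₀ (by linarith) (by linarith)]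
      linarith
    have h4 : (P.card : ℝ) ≤ (X : ℝ) ^ (97 / 100 : ℝ) := by
      have h5 : P ⊆ Icc 1 ⌊(X : ℝ) ^ (97 / 100 : ℝ)⌋₊ := by
        intro p hp
        obtain ⟨a1, _, a3, _⟩ := hPD p hp
        rw [mem_Icc]
        exact ⟨a1.pos, Nat.le_floor a3.le⟩
      have h6 := card_le_card h5
      rw [Nat.card_Icc, Nat.add_sub_cancel] at h6
      exact (by exact_mod_cast h6 : (P.card : ℝ) ≤ ⌊(X : ℝ) ^ (97 / 100 : ℝ)⌋₊).trans
        (Nat.floor_le (by positivity))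
    have h5 : (X : ℝ) / 2 * ∑ p ∈ P, 4 / (p : ℝ) ^ 2 ≤ 4 * (X : ℝ) ^ (97 / 100 : ℝ) := by
      calc (X : ℝ) / 2 * ∑ p ∈ P, 4 / (p : ℝ) ^ 2 ≤ X / 2 * (8 / (X : ℝ) ^ (1 / 4 : ℝ)) :=
            mul_le_mul_of_nonneg_left (h2.trans h3) (by positivity)
        _ = 4 * (X : ℝ) ^ (3 / 4 : ℝ) := by
            have e : (X : ℝ) = (X : ℝ) ^ (3 / 4 : ℝ) * (X : ℝ) ^ (1 / 4 : ℝ) := by
              rw [← Real.rpow_add hX0]
              norm_num
            have e2 : (X : ℝ) ^ (1 / 4 : ℝ) ≠ 0 := by linarith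
            nth_rewrite 1 [e]
            field_simp
            ring
        _ ≤ 4 * (X : ℝ) ^ (97 / 100 : ℝ) := by
            have := hmono (show (3 / 4 : ℝ) ≤ 97 / 100 by norm_num)
            linarith
    linarith
  -- the inclusion
  have hincl : GZ (Zq α β γ) A X ⊆ P3 α β γ A X ∪ P.biUnion T := by
    intro n hn
    unfold GZ at hn
    rw [mem_filter] at hn
    obtain ⟨hnA, hnp, hnw⟩ := hn
    rw [mem_union, or_iff_not_imp_right]
    intro hnT
    have hnT' : ∀ p ∈ P, ¬ p ^ 2 ∣ qv α β γ n := by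
      intro p hp h
      apply hnT
      rw [mem_biUnion]
      exact ⟨p, hp, mem_filter.2 ⟨hnA, h⟩⟩
    have hv0 := qv_ne (α := α) (β := β) (γ := γ) hD n
    have hpr : ∀ p : ℕ, p.Prime → p ∣ qv α β γ n → (X : ℝ) ^ (1 / 4 : ℝ) ≤ p := by
      intro p hp h
      exact hnp p hp ((mem_Zq hp.pos n).2 (dvd_qv.1 h))
    unfold P3
    rw [mem_filter]
    refine ⟨hnA, ?_, hpr⟩
    -- size
    have hsize : ((qv α β γ n : ℕ) : ℝ) ≤ (X : ℝ) ^ (201 / 100 : ℝ) := by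
      have h1 := qv_le α β γ n (A + X) (mem_Ioc.1 hnA).2 (by omega)
      rw [← hK] at h1
      have h2 : ((qv α β γ n : ℕ) : ℝ) ≤ K * ((A : ℝ) + X) ^ 2 := by exact_mod_cast h1
      have h3 : (A : ℝ) + X ≤ 2 * (X : ℝ) ^ (301 / 300 : ℝ) := by
        have := hmono (show (1 : ℝ) ≤ 301 / 300 by norm_num)
        rw [Real.rpow_one] at this
        linarith
      have h4 : ((A : ℝ) + X) ^ 2 ≤ (2 * (X : ℝ) ^ (301 / 300 : ℝ)) ^ 2 :=
        pow_le_pow_left₀ (by positivity) h3 2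
      have e1 : (2 * (X : ℝ) ^ (301 / 300 : ℝ)) ^ 2 = 4 * (X : ℝ) ^ (301 / 150 : ℝ) := by
        rw [mul_pow, ← Real.rpow_natCast, ← Real.rpow_natCast, ← Real.rpow_mul hX0.le]
        norm_num
      have e2 : (X : ℝ) ^ (1 / 300 : ℝ) * (X : ℝ) ^ (301 / 150 : ℝ) = (X : ℝ) ^ (201 / 100 : ℝ) := by
        rw [← Real.rpow_add hX0]
        norm_num
      have h5 : (4 * K : ℝ) ≤ (X : ℝ) ^ (1 / 300 : ℝ) := by
        have : (0 : ℝ) ≤ D.natAbs := Nat.cast_nonneg _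
        linarith
      calc ((qv α β γ n : ℕ) : ℝ) ≤ K * (4 * (X : ℝ) ^ (301 / 150 : ℝ)) := by
            refine h2.trans ?_
            rw [← e1]
            gcongr
        _ = (4 * K) * (X : ℝ) ^ (301 / 150 : ℝ) := by ring
        _ ≤ (X : ℝ) ^ (1 / 300 : ℝ) * (X : ℝ) ^ (301 / 150 : ℝ) := by gcongr
        _ = _ := e2
    by_cases hsf : Squarefree (qv α β γ n)
    · have h1 := (Nat.squarefree_iff_nodup_primeFactorsList hv0).1 hsf
      have h2 : (qv α β γ n).primeFactorsList.length = (qv α β γ n).primeFactors.card := by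
        unfold Nat.primeFactors
        rw [List.toFinset_card_of_nodup h1]
      rw [h2]
      apply omega_le hX2 hv0
      · intro p hp h
        exact (le_tt_iff hX2 hp _).2 (hpr p hp h)
      · rw [div_le_iff₀ hlX]
        have h3 := Real.log_le_log (by exact_mod_cast Nat.pos_of_ne_zero hv0) hsize
        rwa [Real.log_rpow hX0] at h3
      · have e : ∑ q ∈ pr X (1 / 4) (97 / 100), cq X q * (if q ∣ qv α β γ n then (1 : ℝ) else 0) =
            ∑ q ∈ pr X (1 / 4) (97 / 100), cq X q * (if n % q ∈ Zq α β γ q then (1 : ℝ) else 0) := by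
          apply sum_congr rfl
          intro q hq
          have : q ∣ qv α β γ n ↔ n % q ∈ Zq α β γ q := by
            rw [dvd_qv, mem_Zq (mem_pr.1 hq).2.1.pos]
          simp only [this]
        rw [e]
        exact hnw
    · have h1 : ∃ p : ℕ, p.Prime ∧ p * p ∣ qv α β γ n := by
        by_contra hcon
        push Not at hcon
        exact hsf (Nat.squarefree_iff_prime_squarefree.2 hcon)
      obtain ⟨p, hp, w, hw⟩ := h1
      have hpv : p ∣ qv α β γ n := ⟨p * w, by rw [hw]; ring⟩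
      have hp4 := hpr p hp hpv
      have hp97 : (X : ℝ) ^ (97 / 100 : ℝ) ≤ p := by
        by_contra hlt
        rw [not_le] at hlt
        have hpX : p ≤ X := by
          have := hmono (show (97 / 100 : ℝ) ≤ 1 by norm_num)
          rw [Real.rpow_one] at this
          exact_mod_cast hlt.le.trans this
        apply hnT' p (mem_pr.2 ⟨⟨hp.pos, hpX⟩, hp, (le_tt_iff hX2 hp _).2 hp4, (tt_lt_iff hX2 hp _).2 hlt⟩)
        rw [hw, pow_two]
        exact Dvd.intro _ rfl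
      have hw0 : w ≠ 0 := by
        rintro rfl
        rw [mul_zero] at hw
        exact hv0 hw
      have hwlt : (w : ℝ) < (X : ℝ) ^ (1 / 4 : ℝ) := by
        have hX97 : 0 < (X : ℝ) ^ (97 / 100 : ℝ) := by positivity
        have h2 : ((X : ℝ) ^ (97 / 100 : ℝ) * (X : ℝ) ^ (97 / 100 : ℝ)) * w ≤ (X : ℝ) ^ (201 / 100 : ℝ) := by
          refine le_trans ?_ hsize
          rw [hw]
          push_cast
          gcongr
        have e1 : (X : ℝ) ^ (97 / 100 : ℝ) * (X : ℝ) ^ (97 / 100 : ℝ) = (X : ℝ) ^ (194 / 100 : ℝ) := by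
          rw [← Real.rpow_add hX0]
          norm_num
        have e2 : (X : ℝ) ^ (201 / 100 : ℝ) = (X : ℝ) ^ (194 / 100 : ℝ) * (X : ℝ) ^ (7 / 100 : ℝ) := by
          rw [← Real.rpow_add hX0]
          norm_num
        rw [e1, e2] at h2
        have h3 : (w : ℝ) ≤ (X : ℝ) ^ (7 / 100 : ℝ) :=
          le_of_mul_le_mul_left h2 (by positivity)
        refine h3.trans_lt ?_
        exact Real.rpow_lt_rpow_of_exponent_lt (by linarith) (by norm_num)
      have hw1 : w = 1 := by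
        by_contra hne
        obtain ⟨q, hq, hqw⟩ := Nat.exists_prime_and_dvd hne
        have h2 := hpr q hq (by rw [hw]; exact hqw.mul_left _)
        have h3 : (q : ℝ) ≤ w := by exact_mod_cast Nat.le_of_dvd (Nat.pos_of_ne_zero hw0) hqw
        linarith
      rw [hw, hw1, mul_one, ← pow_two, hp.primeFactorsList_pow, List.length_replicate]
      norm_num
  have hcard : ((GZ (Zq α β γ) A X).card : ℝ) ≤ ((P3 α β γ A X).card : ℝ) + 6 * (X : ℝ) ^ (97 / 100 : ℝ) := by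
    have h1 := (card_le_card hincl).trans (card_union_le _ _)
    have h2 : (P.biUnion T).card ≤ ∑ p ∈ P, (T p).card := card_biUnion_le
    have h3 : ((P.biUnion T).card : ℝ) ≤ ∑ p ∈ P, ((T p).card : ℝ) := by exact_mod_cast h2
    have h4 : ((GZ (Zq α β γ) A X).card : ℝ) ≤ ((P3 α β γ A X).card : ℝ) + ((P.biUnion T).card : ℝ) := by
      exact_mod_cast h1
    linarith
  have hfin : 6 * (X : ℝ) ^ (97 / 100 : ℝ) ≤ c / 2 * X / Real.log X := by
    rw [le_div_iff₀ hlX]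
    have e : (X : ℝ) = (X : ℝ) ^ (3 / 100 : ℝ) * (X : ℝ) ^ (97 / 100 : ℝ) := by
      rw [← Real.rpow_add hX0]
      norm_num
    calc 6 * (X : ℝ) ^ (97 / 100 : ℝ) * Real.log X ≤
        6 * (X : ℝ) ^ (97 / 100 : ℝ) * (c / 12 * (X : ℝ) ^ (3 / 100 : ℝ)) := by gcongr
      _ = c / 2 * ((X : ℝ) ^ (3 / 100 : ℝ) * (X : ℝ) ^ (97 / 100 : ℝ)) := by ring
      _ = c / 2 * X := by rw [← e]
  have e : c * X / Real.log X = c / 2 * X / Real.log X + c / 2 * X / Real.log X := by ring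
  linarith

end Pool.Agent.Y843.QD
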