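import Pool.Agent.Y843.QD.Low
import Pool.Agent.Y843.HG.Core

/-!
# Monochromatic progressions in sets sifted by arbitrary classes
-/

set_option autoImplicit false

namespace Pool.Agent.Y843.QD

open Finset Filter
open Pool.Agent.Y843.HS
open Pool.Agent.Y843.HG (InAP Iso fin_iso)

theorem colour_gen (r : ℕ) {t : ℕ} (ht : 1 ≤ t) {c : ℝ} (hc : 0 < c) (k s : ℕ) :
    ∃ B X₀ : ℕ, ∀ X : ℕ, X₀ ≤ X → ∀ A : ℕ, ∀ Z : ℕ → Finset ℕ,
      (∀ p : ℕ, p.Prime → (p : ℝ) ≤ (X : ℝ) ^ (1 / (t : ℝ)) →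
        (Z p).card ≤ r ∧ (Z p).card < p ∧ ∀ c ∈ Z p, c < p) →
      ∀ S : Finset ℕ, S ⊆ Ioc A (A + X) →
      (∀ n ∈ S, ∀ p : ℕ, p.Prime → (p : ℝ) ≤ (X : ℝ) ^ (1 / (t : ℝ)) → n % p ∉ Z p) →
      c * X * VV Z 0 ⌊(X : ℝ) ^ (1 / (t : ℝ))⌋₊ ≤ (S.card : ℝ) → ∀ χ : ℕ → Fin s,
      ∃ a d : ℕ, 1 ≤ d ∧ (d : ℝ) ≤ Real.log X ^ B ∧ ∀ j < k, a + j * d ∈ S ∧ χ (a + j * d) = χ a := by
  classical
  rcases Nat.eq_zero_or_pos s with hs | hs
  · subst hs
    exact ⟨0, 0, fun _ _ _ _ _ _ _ _ _ χ => (χ 0).elim0⟩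
  have ht0 : (0 : ℝ) < t := by exact_mod_cast ht
  have hsr : (0 : ℝ) < s := by exact_mod_cast hs
  obtain ⟨B, X₀, h1⟩ := fin_iso (k := k + 1) (by omega) r (κ := 1 / (t : ℝ)) (ε := c / s)
    (by positivity) (by positivity)
  refine ⟨B, X₀, ?_⟩
  intro X hX A Z hZ S hS hSZ hcS χ
  set V := VV Z 0 ⌊(X : ℝ) ^ (1 / (t : ℝ))⌋₊ with hV
  -- the popular colour
  obtain ⟨i, hi⟩ : ∃ i : Fin s, c / s * X * V ≤ ((S.filter (fun n => χ n = i)).card : ℝ) := by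
    by_contra hcon
    push Not at hcon
    have h2 := card_eq_sum_card_fiberwise (f := χ) (s := S) (t := univ) (fun _ _ => mem_univ _)
    have h3 : (S.card : ℝ) = ∑ i : Fin s, ((S.filter (fun n => χ n = i)).card : ℝ) := by
      rw [h2]; push_cast; rfl
    have h4 : ∑ i : Fin s, ((S.filter (fun n => χ n = i)).card : ℝ) <
        ∑ _i : Fin s, c / s * X * V := by
      apply sum_lt_sum_of_nonempty
      · exact ⟨⟨0, hs⟩, mem_univ _⟩
      · intro i _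
        exact hcon i
    rw [sum_const, card_univ, Fintype.card_fin, nsmul_eq_mul] at h4
    have e : (s : ℝ) * (c / s * X * V) = c * X * V := by
      field_simp
    rw [e, ← h3] at h4
    linarith
  set S' := S.filter (fun n => χ n = i) with hS'
  have hsub : S' ⊆ S := filter_subset _ _
  have h5 := h1 X A hX Z hZ S' (hsub.trans hS) (fun n hn => hSZ n (hsub hn))
  have h6 : ((Iso (k + 1) (Real.log X ^ B) S').card : ℝ) < S'.card := lt_of_lt_of_le h5 hi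
  have h7 : ∃ m ∈ S', InAP (k + 1) (Real.log X ^ B) S' m := by
    by_contra hcon
    push Not at hcon
    have h8 : Iso (k + 1) (Real.log X ^ B) S' = S' := by
      unfold Iso
      exact filter_true_of_mem hcon
    rw [h8] at h6
    exact lt_irrefl _ h6
  obtain ⟨m, _, a, d, hd1, hd2, hj, _⟩ := h7
  refine ⟨a, d, hd1, hd2, ?_⟩
  intro j hjk
  have h8 := hj j (by omega)
  have h9 := hj 0 (by omega)
  rw [zero_mul, add_zero] at h9
  rw [hS', mem_filter] at h8 h9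
  exact ⟨h8.1, by rw [h8.2, h9.2]⟩

end Pool.Agent.Y843.QD
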