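import Pool.Agent.Y843.HS.CorA

/-!
# Integers of an interval in prescribed classes
-/

set_option autoImplicit false

namespace Pool.Agent.Y843.QD

open Finset
open Pool.Agent.Y843.HS (card_res)

theorem card_class (A X M c : ℕ) (hM : 0 < M) :
    |(((Ioc A (A + X)).filter (fun n => n ≡ c [MOD M])).card : ℝ) - (X : ℝ) / M| ≤ 1 := by
  have h := Nat.Ioc_filter_modEq_card A (A + X) hM c
  have hMr : (0 : ℝ) < M := by exact_mod_cast hM
  have hMq : (0 : ℚ) < M := by exact_mod_cast hM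
  have h1 : ((((Ioc A (A + X)).filter (fun n => n ≡ c [MOD M])).card : ℤ) : ℚ) =
      ((max (⌊(((A + X : ℕ) : ℚ) - c) / M⌋ - ⌊((A : ℚ) - c) / M⌋) 0 : ℤ) : ℚ) := by
    exact_mod_cast h
  have e : (((A + X : ℕ) : ℚ) - c) / M = ((A : ℚ) - c) / M + X / M := by
    push_cast
    ring
  rw [e] at h1
  set u : ℚ := ((A : ℚ) - c) / M
  set w : ℚ := (X : ℚ) / M with hw
  have hw0 : 0 ≤ w := by positivity
  have f1 := Int.floor_le (u + w)
  have f2 := Int.lt_floor_add_one (u + w)
  have f3 := Int.floor_le u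
  have f4 := Int.lt_floor_add_one u
  have h2 : |((((Ioc A (A + X)).filter (fun n => n ≡ c [MOD M])).card : ℤ) : ℚ) - w| ≤ 1 := by
    rw [h1]
    have h3 : 0 ≤ ⌊u + w⌋ - ⌊u⌋ := by
      have := Int.floor_le_floor (show u ≤ u + w by linarith)
      omega
    rw [max_eq_left h3]
    push_cast
    rw [abs_le]
    constructor <;> linarith
  have h4 : ((|((((Ioc A (A + X)).filter (fun n => n ≡ c [MOD M])).card : ℤ) : ℚ) - w| : ℚ) : ℝ) ≤ ((1 : ℚ) : ℝ) := by
    exact_mod_cast h2
  rw [hw] at h4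
  push_cast at h4
  exact h4

/-- the integers of an interval in the classes `cl p`, `p ∈ W` -/
theorem card_classes (W : Finset ℕ) (hW : ∀ p ∈ W, p.Prime) (cl : ℕ → Finset ℕ)
    (hcl : ∀ p ∈ W, ∀ c ∈ cl p, c < p) (A X : ℕ) :
    |(((Ioc A (A + X)).filter (fun n => ∀ p ∈ W, n % p ∈ cl p)).card : ℝ) -
      (X : ℝ) * ∏ p ∈ W, ((cl p).card : ℝ) / p| ≤ ∏ p ∈ W, ((cl p).card : ℝ) := by
  classical
  set M := ∏ p ∈ W, p with hM
  have hM0 : 0 < M := prod_pos fun p hp => (hW p hp).pos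
  have hMr : (0 : ℝ) < M := by exact_mod_cast hM0
  set C := (range M).filter (fun a => ∀ p ∈ W, a % p ∈ cl p) with hC
  have hcard := card_res W hW cl hcl
  rw [← hM, ← hC] at hcard
  have hmod : ∀ n : ℕ, (∀ p ∈ W, n % p ∈ cl p) ↔ n % M ∈ C := by
    intro n
    rw [hC, mem_filter, mem_range]
    have h1 : ∀ p ∈ W, n % M % p = n % p := fun p hp => Nat.mod_mod_of_dvd _ (dvd_prod_of_mem _ hp)
    constructor
    · intro h
      exact ⟨Nat.mod_lt _ hM0, fun p hp => by rw [h1 p hp]; exact h p hp⟩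
    · rintro ⟨_, h⟩ p hp
      rw [← h1 p hp]
      exact h p hp
  have hsum : (((Ioc A (A + X)).filter (fun n => ∀ p ∈ W, n % p ∈ cl p)).card : ℝ) =
      ∑ c ∈ C, (((Ioc A (A + X)).filter (fun n => n ≡ c [MOD M])).card : ℝ) := by
    have e1 : (Ioc A (A + X)).filter (fun n => ∀ p ∈ W, n % p ∈ cl p) =
        (Ioc A (A + X)).filter (fun n => n % M ∈ C) := by
      apply filter_congr
      intro n _
      exact hmod n
    rw [e1]
    have e2 := card_eq_sum_card_fiberwise (f := fun n => n % M) (s := (Ioc A (A + X)).filter (fun n => n % M ∈ C))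
      (t := C) (fun n hn => (mem_filter.1 hn).2)
    rw [e2]
    push_cast
    apply sum_congr rfl
    intro c hc
    congr 2
    rw [filter_filter]
    apply filter_congr
    intro n _
    have hcM : c < M := by
      have := (mem_filter.1 hc).1
      rwa [mem_range] at this
    constructor
    · rintro ⟨_, h2⟩
      show n % M = c % M
      rw [Nat.mod_eq_of_lt hcM]
      exact h2
    · intro h2
      have h3 : n % M = c % M := h2
      rw [Nat.mod_eq_of_lt hcM] at h3
      exact ⟨by rw [h3]; exact hc, h3⟩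
  have hprod : ∏ p ∈ W, ((cl p).card : ℝ) / p = (C.card : ℝ) / M := by
    rw [prod_div_distrib, hcard, hM]
    push_cast
    rfl
  have hprod2 : ∏ p ∈ W, ((cl p).card : ℝ) = C.card := by
    rw [hcard]
    push_cast
    rfl
  rw [hsum, hprod, hprod2]
  have e3 : (X : ℝ) * ((C.card : ℝ) / M) = ∑ c ∈ C, (X : ℝ) / M := by
    rw [sum_const, nsmul_eq_mul]
    ring
  rw [e3, ← sum_sub_distrib]
  refine (abs_sum_le_sum_abs _ _).trans ?_
  calc ∑ c ∈ C, |(((Ioc A (A + X)).filter (fun n => n ≡ c [MOD M])).card : ℝ) - (X : ℝ) / M|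
      ≤ ∑ _c ∈ C, (1 : ℝ) := sum_le_sum fun c _ => card_class A X M c hM0
    _ = C.card := by rw [sum_const, nsmul_eq_mul, mul_one]

end Pool.Agent.Y843.QD
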