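import Pool.Agent.Y675.TC.Fin2
import Pool.Agent.Y843.QD.Cnt
import Pool.Agent.Y843.QD.Lin
import Pool.Agent.H398R2.BV1

/-!
# The weighted linear sieve in intervals, for arbitrary classes of dimension one
-/

set_option autoImplicit false

namespace Pool.Agent.Y843.QD

open Finset Pool.Agent.W23.DC Pool.Agent.Y660.RP Pool.Agent.Y675.TC Filter
open Pool.Agent.Y843.HS (Pr VV Pr_mem Pr_prime)

/-- the product of the primes `z < p ≤ X` with `n` in a class of `Z p` -/
def vZ (Z : ℕ → Finset ℕ) (z X n : ℕ) : ℕ := ∏ p ∈ (Pr z X).filter (fun p => n % p ∈ Z p), p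

theorem dvd_vZ {Z : ℕ → Finset ℕ} {z X n p : ℕ} (hp : p.Prime) :
    p ∣ vZ Z z X n ↔ p ∈ Pr z X ∧ n % p ∈ Z p := by
  unfold vZ
  rw [Prime.dvd_finsetProd_iff hp.prime]
  constructor
  · rintro ⟨q, hq, h⟩
    rw [mem_filter] at hq
    have := (Nat.prime_dvd_prime_iff_eq hp (Pr_prime hq.1)).1 h
    subst this
    exact hq
  · rintro ⟨h1, h2⟩
    exact ⟨p, mem_filter.2 ⟨h1, h2⟩, dvd_refl _⟩

/-- the weight -/
noncomputable def Wz (Z : ℕ → Finset ℕ) (X n : ℕ) : ℝ :=
  1 - ∑ q ∈ pr X (1 / 4) (97 / 100), cq X q * (if n % q ∈ Z q then 1 else 0)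

open Classical in
/-- the elements of the interval with positive weight and without small primes -/
noncomputable def GZ (Z : ℕ → Finset ℕ) (A X : ℕ) : Finset ℕ :=
  (Ioc A (A + X)).filter (fun n => (∀ p : ℕ, p.Prime → n % p ∈ Z p → (X : ℝ) ^ (1 / 4 : ℝ) ≤ p) ∧
    0 < Wz Z X n)

theorem p3w {Z : ℕ → Finset ℕ} (h : Lin Z) : ∃ c : ℝ, 0 < c ∧ ∃ X₀ : ℕ, ∀ X : ℕ, X₀ ≤ X → ∀ A : ℕ,
    c * X / Real.log X ≤ ((GZ Z A X).card : ℝ) := by
  classical
  obtain ⟨A0, C0, hA0, hcore⟩ := core4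
  set z : ℕ := max C0 5 with hz
  have hzC : C0 ≤ z := le_max_left _ _
  have hz5 : 5 ≤ z := le_max_right _ _
  set κ : ℝ := A0 * (50 / 49 * (Real.log (73 / 25) - 13 / 25 * Real.log (97 / 25))) with hκ
  have hκ0 : 0 < κ := mul_pos hA0 log_pos_const
  obtain ⟨ε₁, hε₁, hε8, ηM, hηM, N0, hN02, hc⟩ := hcore z hzC (κ / 2) (by positivity)
  obtain ⟨N₁, h1⟩ := h.mer hε₁ hηM
  obtain ⟨c, C, hc0, hC0, hprd⟩ := h.prd
  -- the classes modulo the small primes
  have hb : ∀ p : ℕ, ∃ b : ℕ, p.Prime → b < p ∧ b ∉ Z p := by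
    intro p
    by_cases hp : p.Prime
    · by_contra hcon
      push Not at hcon
      have h2 : range p ⊆ Z p := by
        intro b hb
        exact (hcon b).2 (mem_range.1 hb)
      have h3 := card_le_card h2
      rw [card_range] at h3
      have := h.lt p hp
      omega
    · exact ⟨0, fun h => absurd h hp⟩
  choose b hb using hb
  set P0 : ℝ := ∏ p ∈ Pr 0 z, (1 : ℝ) / p with hP0
  have hP0p : 0 < P0 := prod_pos fun p hp => by
    have : (0 : ℝ) < p := by exact_mod_cast (Pr_prime hp).pos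
    positivity
  have hev1 : ∀ᶠ X : ℕ in atTop, (Real.log X) ^ (4 : ℝ) ≤
      ε₁ * c * κ * P0 / 8 * (X : ℝ) ^ (1 / 100 : ℝ) := by
    have h := (isLittleO_log_rpow_rpow_atTop (4 : ℝ) (show (0 : ℝ) < 1 / 100 by norm_num)).bound
      (show (0 : ℝ) < ε₁ * c * κ * P0 / 8 by positivity)
    have h' := tendsto_natCast_atTop_atTop.eventually h
    filter_upwards [h', eventually_ge_atTop 3] with M hM hM3
    have hl : 0 ≤ Real.log M := Real.log_natCast_nonneg M
    rw [Real.norm_of_nonneg (by positivity), Real.norm_of_nonneg (by positivity)] at hM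
    exact hM
  obtain ⟨M₁, hM₁⟩ := eventually_atTop.1 hev1
  refine ⟨ε₁ * c * κ * P0 / 8, by positivity, max (max M₁ (max N0 N₁)) 8, fun X hX A => ?_⟩
  have hXM1 : M₁ ≤ X := ((le_max_left _ _).trans (le_max_left _ _)).trans hX
  have hXN0 : N0 ≤ X := (((le_max_left _ _).trans (le_max_right _ _)).trans (le_max_left _ _)).trans hX
  have hXN1 : N₁ ≤ X := (((le_max_right _ _).trans (le_max_right _ _)).trans (le_max_left _ _)).trans hX
  have hX8 : 8 ≤ X := (le_max_right _ _).trans hX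
  have hlog4 := hM₁ X hXM1
  have hXr : (8 : ℝ) ≤ X := by exact_mod_cast hX8
  have hX0 : (0 : ℝ) < X := by linarith
  have hX1 : (1 : ℝ) ≤ X := by linarith
  have hlX : 2 < Real.log X := by
    rw [Real.lt_log_iff_exp_lt hX0]
    have h3 := Real.exp_one_lt_d9
    have h4 : Real.exp 2 = Real.exp 1 * Real.exp 1 := by rw [← Real.exp_add]; norm_num
    rw [h4]
    have := Real.exp_pos 1
    nlinarith
  obtain ⟨hzN, hc'⟩ := hc X hXN0
  have hMer := h1 X hXN1
  set g : ℕ → ℝ := fun p => ((Z p).card : ℝ) / p with hg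
  set cl : ℕ → Finset ℕ := fun p => if p ≤ z then {b p} else Z p with hcl
  set Ω : Finset ℕ := (Ioc A (A + X)).filter (fun n => ∀ p ∈ Pr 0 z, n % p ∈ cl p) with hΩ
  have hgfac : ∀ p : ℕ, p.Prime → 0 < 1 - g p ∧ 1 - g p ≤ 1 ∧ 0 ≤ g p := by
    intro p hp
    have hp0 : (0 : ℝ) < p := by exact_mod_cast hp.pos
    have h2 : ((Z p).card : ℝ) < p := by exact_mod_cast h.lt p hp
    have h3 : 0 ≤ ((Z p).card : ℝ) / p := by positivity
    simp only [hg]
    refine ⟨?_, by linarith, h3⟩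
    rw [sub_pos, div_lt_one hp0]
    exact h2
  have hgle : ∀ p : ℕ, p.Prime → z < p → 0 ≤ g p ∧ g p ≤ 4 / ((p : ℝ) - 1) := by
    intro p hp _
    refine ⟨(hgfac p hp).2.2, ?_⟩
    have hp2 : (2 : ℝ) ≤ p := by exact_mod_cast hp.two_le
    have h2 : ((Z p).card : ℝ) ≤ 2 := by exact_mod_cast h.two p hp
    simp only [hg]
    rw [div_le_div_iff₀ (by linarith) (by linarith)]
    nlinarith
  have key := hc' _ Ω (vZ Z z X) g (X * P0) (by positivity) hgle
    (fun a b ha hab hb => by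
      rw [pr_sub X ε₁ (1 / 4) a b ha hb]
      exact hMer a b ha hab (by linarith))
    (by
      have := (abs_le.1 (hMer (1 / 4) (97 / 100) (by linarith) (by norm_num) (by norm_num))).2
      have e : (97 / 100 / (1 / 4) : ℝ) = 97 / 25 := by norm_num
      rw [e] at this
      linarith)
  -- the main term
  have hV : c / Real.log X ≤ ∏ p ∈ P1 X z ε₁, (1 - g p) := by
    refine (hprd X (by omega)).1.trans ?_
    have hsub : P1 X z ε₁ ⊆ Pr 0 X := by
      intro p hp
      rw [mem_P1] at hp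
      rw [Pr_mem]
      exact ⟨⟨hp.2.1.pos, hp.1.2⟩, hp.2.1⟩
    unfold VV
    rw [← prod_sdiff hsub]
    apply mul_le_of_le_one_left
    · exact prod_nonneg fun p hp => (hgfac p (Pr_prime (hsub hp))).1.le
    · exact Finset.prod_le_one (fun p hp => (hgfac p (Pr_prime (mem_sdiff.1 hp).1)).1.le)
        (fun p hp => (hgfac p (Pr_prime (mem_sdiff.1 hp).1)).2.1)
  have hmain : ε₁ * c * κ * P0 / 2 * X / Real.log X ≤
      ε₁ * ((X * P0) * ∏ p ∈ P1 X z ε₁, (1 - g p)) * (κ - κ / 2) := by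
    calc ε₁ * c * κ * P0 / 2 * X / Real.log X =
        ε₁ * ((X * P0) * (c / Real.log X)) * (κ - κ / 2) := by
          field_simp
          ring
      _ ≤ _ := by
          have : 0 ≤ κ - κ / 2 := by linarith
          gcongr
  -- the error term
  have hRr : ∀ q ∈ Lv' z ((X : ℝ) ^ (99 / 100 : ℝ)), Rr Ω (vZ Z z X) g (X * P0) q ≤ (q.divisors.card : ℝ) := by
    intro q hq
    unfold Lv' at hq
    rw [mem_filter, mem_Icc] at hq
    obtain ⟨⟨hq1, hqX⟩, hqs, hqz⟩ := hq
    have hqX' : q ≤ X := by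
      have h2 : (X : ℝ) ^ (99 / 100 : ℝ) ≤ (X : ℝ) ^ (1 : ℝ) :=
        Real.rpow_le_rpow_of_exponent_le hX1 (by norm_num)
      rw [Real.rpow_one] at h2
      have h3 := (Nat.le_floor_iff (by positivity)).1 hqX
      exact_mod_cast h3.trans h2
    set W := Pr 0 z ∪ q.primeFactors with hW
    have hWp : ∀ p ∈ W, p.Prime := by
      intro p hp
      rcases mem_union.1 hp with h2 | h2
      · exact Pr_prime h2
      · exact Nat.prime_of_mem_primeFactors h2
    have hdisj : Disjoint (Pr 0 z) q.primeFactors := by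
      rw [Finset.disjoint_left]
      intro p hp hq
      have := hqz p hq
      have := (Pr_mem.1 hp).1.2
      omega
    have hclW : ∀ p ∈ W, ∀ c ∈ cl p, c < p := by
      intro p hp c hcc
      simp only [hcl] at hcc
      split_ifs at hcc with h2
      · rw [mem_singleton] at hcc
        rw [hcc]
        exact (hb p (hWp p hp)).1
      · exact h.cl p c hcc
    have hcnt := card_classes W hWp cl hclW A X
    have e1 : (Ioc A (A + X)).filter (fun n => ∀ p ∈ W, n % p ∈ cl p) =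
        Ω.filter (fun i => q ∣ vZ Z z X i) := by
      rw [hΩ, filter_filter]
      apply filter_congr
      intro n _
      rw [hW]
      constructor
      · intro h2
        refine ⟨fun p hp => h2 p (mem_union_left _ hp), ?_⟩
        have h3 : ∏ p ∈ q.primeFactors, p = q := Nat.prod_primeFactors_of_squarefree hqs
        rw [← h3]
        apply Finset.prod_primes_dvd
        · intro p hp
          exact (Nat.prime_of_mem_primeFactors hp).prime
        · intro p hp
          rw [dvd_vZ (Nat.prime_of_mem_primeFactors hp)]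
          have h4 := h2 p (mem_union_right _ hp)
          simp only [hcl] at h4
          rw [if_neg (not_le.2 (hqz p hp))] at h4
          refine ⟨?_, h4⟩
          rw [Pr_mem]
          exact ⟨⟨hqz p hp, (Nat.le_of_dvd (by omega) (Nat.dvd_of_mem_primeFactors hp)).trans hqX'⟩,
            Nat.prime_of_mem_primeFactors hp⟩
      · rintro ⟨h2, h3⟩ p hp
        rcases mem_union.1 hp with h4 | h4
        · exact h2 p h4
        · have h5 := (dvd_vZ (Nat.prime_of_mem_primeFactors h4)).1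
            ((Nat.dvd_of_mem_primeFactors h4).trans h3)
          simp only [hcl]
          rw [if_neg (not_le.2 (hqz p h4))]
          exact h5.2
    rw [e1] at hcnt
    have e2 : ∏ p ∈ W, ((cl p).card : ℝ) / p = P0 * gp g q := by
      rw [hW, prod_union hdisj]
      congr 1
      · rw [hP0]
        apply prod_congr rfl
        intro p hp
        simp only [hcl]
        rw [if_pos (Pr_mem.1 hp).1.2, card_singleton, Nat.cast_one]
      · unfold gp
        apply prod_congr rfl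
        intro p hp
        simp only [hcl, hg]
        rw [if_neg (not_le.2 (hqz p hp))]
    have e3 : ∏ p ∈ W, ((cl p).card : ℝ) ≤ (q.divisors.card : ℝ) := by
      rw [hW, prod_union hdisj]
      have h2 : ∏ p ∈ Pr 0 z, ((cl p).card : ℝ) = 1 := by
        apply prod_eq_one
        intro p hp
        simp only [hcl]
        rw [if_pos (Pr_mem.1 hp).1.2, card_singleton, Nat.cast_one]
      have h3 : ∏ p ∈ q.primeFactors, ((cl p).card : ℝ) ≤ ∏ _p ∈ q.primeFactors, (2 : ℝ) := by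
        apply prod_le_prod (fun p _ => Nat.cast_nonneg _)
        intro p hp
        simp only [hcl]
        rw [if_neg (not_le.2 (hqz p hp))]
        exact_mod_cast h.two p (Nat.prime_of_mem_primeFactors hp)
      rw [prod_const] at h3
      have h4 : ((2 : ℝ) ^ q.primeFactors.card) ≤ (q.divisors.card : ℝ) := by
        exact_mod_cast Pool.Agent.H398R2.BV.two_pow_omega_le q (by omega)
      rw [h2, one_mul]
      exact h3.trans h4
    rw [e2, ← mul_assoc] at hcnt
    unfold Rr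
    exact hcnt.trans e3
  have herr : Real.log X * ∑ q ∈ Lv' z ((X : ℝ) ^ (99 / 100 : ℝ)), Rr Ω (vZ Z z X) g (X * P0) q ≤
      ε₁ * c * κ * P0 / 4 * X / Real.log X := by
    set Y := ⌊(X : ℝ) ^ (99 / 100 : ℝ)⌋₊ with hY
    have h2 : ∑ q ∈ Lv' z ((X : ℝ) ^ (99 / 100 : ℝ)), Rr Ω (vZ Z z X) g (X * P0) q ≤
        ∑ q ∈ Icc 1 Y, (q.divisors.card : ℝ) :=
      (sum_le_sum hRr).trans (sum_le_sum_of_subset_of_nonneg (filter_subset _ _)
        (fun _ _ _ => Nat.cast_nonneg _))
    have h3 := Pool.Agent.H398R2.BV.sum_card_div Y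
    have h4 : (Y : ℝ) ≤ (X : ℝ) ^ (99 / 100 : ℝ) := Nat.floor_le (by positivity)
    have hY1 : (1 : ℝ) ≤ Y := by
      have : 1 ≤ Y := by
        rw [hY, Nat.one_le_floor_iff]
        exact Real.one_le_rpow hX1 (by norm_num)
      exact_mod_cast this
    have h5 : Real.log Y ≤ Real.log X := by
      apply Real.log_le_log (by linarith)
      refine h4.trans ?_
      have h2 : (X : ℝ) ^ (99 / 100 : ℝ) ≤ (X : ℝ) ^ (1 : ℝ) :=
        Real.rpow_le_rpow_of_exponent_le hX1 (by norm_num)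
      rwa [Real.rpow_one] at h2
    have hlY : 0 ≤ Real.log Y := Real.log_nonneg hY1
    have e5 : (X : ℝ) = (X : ℝ) ^ (1 / 100 : ℝ) * (X : ℝ) ^ (99 / 100 : ℝ) := by
      rw [← Real.rpow_add hX0]
      norm_num
    have h6 : ∑ q ∈ Lv' z ((X : ℝ) ^ (99 / 100 : ℝ)), Rr Ω (vZ Z z X) g (X * P0) q ≤
        (X : ℝ) ^ (99 / 100 : ℝ) * (2 * Real.log X) := by
      refine (h2.trans h3).trans ?_
      apply mul_le_mul h4 (by linarith) (by linarith) (by positivity)
    have h7 : (Real.log X) ^ (4 : ℝ) = Real.log X ^ 4 := by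
      rw [← Real.rpow_natCast]
      norm_num
    rw [h7] at hlog4
    rw [le_div_iff₀ (by linarith)]
    calc (Real.log X * ∑ q ∈ Lv' z ((X : ℝ) ^ (99 / 100 : ℝ)), Rr Ω (vZ Z z X) g (X * P0) q) * Real.log X
        ≤ (Real.log X * ((X : ℝ) ^ (99 / 100 : ℝ) * (2 * Real.log X))) * Real.log X := by
          gcongr
      _ = (X : ℝ) ^ (99 / 100 : ℝ) * (2 * Real.log X ^ 3) := by ring
      _ ≤ (X : ℝ) ^ (99 / 100 : ℝ) * (2 * (ε₁ * c * κ * P0 / 8 * (X : ℝ) ^ (1 / 100 : ℝ))) := by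
          have h8 : Real.log X ^ 3 ≤ Real.log X ^ 4 := by
            apply pow_le_pow_right₀ (by linarith) (by norm_num)
          have h9 := h8.trans hlog4
          gcongr
      _ = ε₁ * c * κ * P0 / 4 * ((X : ℝ) ^ (1 / 100 : ℝ) * (X : ℝ) ^ (99 / 100 : ℝ)) := by ring
      _ = ε₁ * c * κ * P0 / 4 * X := by rw [← e5]
  have hlow : ε₁ * c * κ * P0 / 8 * X / Real.log X ≤
      ∑ i ∈ Ω.filter (fun i => ∀ p ∈ P1 X z ε₁, ¬ p ∣ vZ Z z X i), II X ε₁ (vZ Z z X i) *
      (1 - ∑ q ∈ pr X (1 / 4) (97 / 100), cq X q * (if q ∣ vZ Z z X i then 1 else 0)) := by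
    refine le_trans ?_ key
    have h2 : ε₁ * c * κ * P0 / 2 * X / Real.log X =
        4 * (ε₁ * c * κ * P0 / 8 * X / Real.log X) := by ring
    have h3 : ε₁ * c * κ * P0 / 4 * X / Real.log X =
        2 * (ε₁ * c * κ * P0 / 8 * X / Real.log X) := by ring
    have h4 : 0 ≤ ε₁ * c * κ * P0 / 8 * X / Real.log X := by positivity
    linarith
  refine hlow.trans ?_
  -- the count
  have hX2 : 2 ≤ X := by omega
  have hsum : ∀ i, (∑ q ∈ pr X (1 / 4) (97 / 100), cq X q * (if q ∣ vZ Z z X i then (1 : ℝ) else 0)) =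
      ∑ q ∈ pr X (1 / 4) (97 / 100), cq X q * (if i % q ∈ Z q then (1 : ℝ) else 0) := by
    intro i
    apply sum_congr rfl
    intro q hq
    have hq' := mem_pr.1 hq
    have h2 : q ∈ Pr z X := by
      rw [Pr_mem]
      refine ⟨⟨?_, hq'.1.2⟩, hq'.2.1⟩
      have h3 := (le_tt_iff hX2 hq'.2.1 _).1 hq'.2.2.1
      have h4 : (X : ℝ) ^ ε₁ ≤ (X : ℝ) ^ (1 / 4 : ℝ) :=
        Real.rpow_le_rpow_of_exponent_le hX1 (by linarith)
      have h5 : (z : ℝ) < q := by linarith
      exact_mod_cast h5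
    have h3 : q ∣ vZ Z z X i ↔ i % q ∈ Z q := by
      rw [dvd_vZ hq'.2.1]
      exact ⟨fun h => h.2, fun h => ⟨h2, h⟩⟩
    simp only [h3]
  have hterm : ∀ i ∈ Ω.filter (fun i => ∀ p ∈ P1 X z ε₁, ¬ p ∣ vZ Z z X i),
      II X ε₁ (vZ Z z X i) *
      (1 - ∑ q ∈ pr X (1 / 4) (97 / 100), cq X q * (if q ∣ vZ Z z X i then 1 else 0)) ≤
      if i ∈ GZ Z A X then 1 else 0 := by
    intro i hi
    rw [mem_filter, hΩ, mem_filter] at hi
    obtain ⟨⟨hiA, hicl⟩, hiP⟩ := hi
    rw [hsum i]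
    change II X ε₁ (vZ Z z X i) * Wz Z X i ≤ _
    have hW1 : Wz Z X i ≤ 1 := by
      unfold Wz
      have h3 : 0 ≤ ∑ q ∈ pr X (1 / 4) (97 / 100), cq X q * (if i % q ∈ Z q then (1 : ℝ) else 0) := by
        apply Finset.sum_nonneg
        intro q hq
        have := cq_nonneg q hq
        split_ifs <;> simp [this]
      linarith
    split_ifs with hG
    · unfold II
      split_ifs
      · linarith
      · simp
    · by_contra hpos
      rw [not_le] at hpos
      apply hG
      have hII : ∀ p ∈ pr X ε₁ (1 / 4), ¬ p ∣ vZ Z z X i := by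
        by_contra hcon
        unfold II at hpos
        rw [if_neg hcon, zero_mul] at hpos
        exact lt_irrefl _ hpos
      have hw : 0 < Wz Z X i := by
        unfold II at hpos
        rw [if_pos hII, one_mul] at hpos
        exact hpos
      unfold GZ
      rw [mem_filter]
      refine ⟨hiA, ?_, hw⟩
      intro p hp hpi
      by_contra hlt
      rw [not_le] at hlt
      have hpX : p ≤ X := by
        have h7 : (X : ℝ) ^ (1 / 4 : ℝ) ≤ (X : ℝ) ^ (1 : ℝ) :=
          Real.rpow_le_rpow_of_exponent_le hX1 (by norm_num)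
        rw [Real.rpow_one] at h7
        have h8 : (p : ℝ) ≤ X := by linarith
        exact_mod_cast h8
      rcases le_or_gt p z with h4 | h4
      · have h5 := hicl p (by rw [Pr_mem]; exact ⟨⟨hp.pos, h4⟩, hp⟩)
        simp only [hcl] at h5
        rw [if_pos h4, mem_singleton] at h5
        rw [h5] at hpi
        exact (hb p hp).2 hpi
      · have hdv : p ∣ vZ Z z X i := (dvd_vZ hp).2 ⟨by rw [Pr_mem]; exact ⟨⟨h4, hpX⟩, hp⟩, hpi⟩
        have hlt' := (tt_lt_iff hX2 hp _).2 hlt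
        rcases lt_or_ge (tt X p) ε₁ with h5 | h5
        · exact hiP p (mem_P1.2 ⟨⟨h4, hpX⟩, hp, (tt_lt_iff hX2 hp _).1 h5⟩) hdv
        · exact hII p (mem_pr.2 ⟨⟨hp.pos, hpX⟩, hp, h5, hlt'⟩) hdv
  refine (sum_le_sum hterm).trans ?_
  rw [← sum_filter, sum_const, nsmul_eq_mul, mul_one]
  have : (Ω.filter (fun i => ∀ p ∈ P1 X z ε₁, ¬ p ∣ vZ Z z X i)).filter (fun i => i ∈ GZ Z A X) ⊆
      GZ Z A X := fun i hi => (mem_filter.1 hi).2
  exact_mod_cast card_le_card this

end Pool.Agent.Y843.QD
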